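import Pool.Agent.H398R2.RK.Smooth

set_option autoImplicit false
set_option linter.unusedVariables false

/-! # Smooth numbers: a bound without loss of a logarithm -/

namespace Pool.Agent.K4H15

open Finset Pool.Agent.H398R2.RK Pool.Agent.H318R2.Cr

open scoped Classical

/-- the integers up to `N` whose prime factors are at most `v` -/
noncomputable def Sm (v N : ℕ) : Finset ℕ := (Icc 1 N).filter (fun n => ∀ p : ℕ, p.Prime → p ∣ n → p ≤ v)

theorem mem_Sm {v N n : ℕ} : n ∈ Sm v N ↔ (1 ≤ n ∧ n ≤ N) ∧ ∀ p : ℕ, p.Prime → p ∣ n → p ≤ v := by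
  unfold Sm
  rw [mem_filter, mem_Icc]

theorem sum_log_le (v N : ℕ) : ∑ n ∈ Sm v N, Real.log n ≤
    ∑ m ∈ Sm v N, ∑ d ∈ (Sm v N).filter (fun d => m * d ≤ N), ArithmeticFunction.vonMangoldt d := by
  have h1 : ∀ n ∈ Sm v N, Real.log n = ∑ d ∈ Sm v N, (if d ∣ n then ArithmeticFunction.vonMangoldt d else 0) := by
    intro n hn
    obtain ⟨⟨hn1, hn2⟩, hn3⟩ := mem_Sm.1 hn
    rw [← ArithmeticFunction.vonMangoldt_sum, ← sum_filter]
    apply sum_congr _ (fun _ _ => rfl)
    ext d
    rw [Nat.mem_divisors, mem_filter, mem_Sm]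
    constructor
    · rintro ⟨hd, _⟩
      exact ⟨⟨⟨Nat.pos_of_dvd_of_pos hd hn1, (Nat.le_of_dvd hn1 hd).trans hn2⟩,
        fun p hp hpd => hn3 p hp (hpd.trans hd)⟩, hd⟩
    · rintro ⟨_, hd⟩
      exact ⟨hd, by omega⟩
  rw [sum_congr rfl h1, sum_comm]
  have h2 : ∀ d ∈ Sm v N, ∑ n ∈ Sm v N, (if d ∣ n then ArithmeticFunction.vonMangoldt d else 0) ≤
      ∑ m ∈ Sm v N, (if m * d ≤ N then ArithmeticFunction.vonMangoldt d else 0) := by
    intro d hd
    obtain ⟨⟨hd1, hd2⟩, hd3⟩ := mem_Sm.1 hd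
    rw [← sum_filter, ← sum_filter, sum_const, sum_const, nsmul_eq_mul, nsmul_eq_mul]
    apply mul_le_mul_of_nonneg_right _ ArithmeticFunction.vonMangoldt_nonneg
    norm_cast
    apply card_le_card_of_injOn (fun n => n / d)
    · intro n hn
      rw [mem_coe, mem_filter] at hn
      obtain ⟨hn, hdn⟩ := hn
      obtain ⟨⟨hn1, hn2⟩, hn3⟩ := mem_Sm.1 hn
      rw [mem_coe, mem_filter, mem_Sm, Nat.div_mul_cancel hdn]
      refine ⟨⟨⟨Nat.div_pos (Nat.le_of_dvd hn1 hdn) hd1, (Nat.div_le_self _ _).trans hn2⟩,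
        fun p hp hpd => hn3 p hp (hpd.trans (Nat.div_dvd_of_dvd hdn))⟩, hn2⟩
    · intro n hn n' hn' h
      rw [mem_coe, mem_filter] at hn hn'
      have h3 : n / d = n' / d := h
      rw [← Nat.div_mul_cancel hn.2, ← Nat.div_mul_cancel hn'.2, h3]
  refine (sum_le_sum h2).trans (le_of_eq ?_)
  rw [sum_comm]
  apply sum_congr rfl
  intro m _
  rw [sum_filter]

theorem psi_smooth1 (v N : ℕ) (t : ℝ) (ht : 1 ≤ t) :
    ∑ d ∈ (Sm v N).filter (fun d : ℕ => (d : ℝ) ≤ t), ArithmeticFunction.vonMangoldt d ≤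
      Nat.primeCounting v * Real.log t := by
  set T := ⌊t⌋₊ with hT
  have hT1 : 1 ≤ T := Nat.le_floor (by simpa using ht)
  set P := (Icc 1 v).filter Nat.Prime with hP
  set Q : ℕ := ∏ p ∈ P, p ^ (Nat.log p T) with hQ
  have hQ0 : Q ≠ 0 := by
    rw [hQ, prod_ne_zero_iff]
    intro p hp
    have := (mem_filter.1 hp).2.pos
    positivity
  have h1 : ∑ d ∈ (Sm v N).filter (fun d : ℕ => (d : ℝ) ≤ t), ArithmeticFunction.vonMangoldt d ≤
      ∑ d ∈ Q.divisors, ArithmeticFunction.vonMangoldt d := by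
    have e1 : ∑ d ∈ (Sm v N).filter (fun d : ℕ => (d : ℝ) ≤ t), ArithmeticFunction.vonMangoldt d =
        ∑ d ∈ ((Sm v N).filter (fun d : ℕ => (d : ℝ) ≤ t)).filter IsPrimePow,
          ArithmeticFunction.vonMangoldt d := by
      symm
      apply sum_filter_of_ne
      intro d _ hd
      by_contra hc
      exact hd (ArithmeticFunction.vonMangoldt_eq_zero_iff.2 hc)
    rw [e1]
    apply sum_le_sum_of_subset_of_nonneg
    · intro d hd
      rw [mem_filter, mem_filter, mem_Sm] at hd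
      obtain ⟨⟨⟨⟨hd1, hd2⟩, hd3⟩, hdt⟩, hpp⟩ := hd
      obtain ⟨p, k, hp, hk, hpk⟩ := (isPrimePow_nat_iff d).1 hpp
      rw [Nat.mem_divisors]
      refine ⟨?_, hQ0⟩
      have hpv : p ≤ v := hd3 p hp (by rw [← hpk]; exact dvd_pow_self p hk.ne')
      have hpP : p ∈ P := by
        rw [hP, mem_filter, mem_Icc]
        exact ⟨⟨hp.one_lt.le, hpv⟩, hp⟩
      have hdT : d ≤ T := Nat.le_floor hdt
      have hkl : k ≤ Nat.log p T := by
        apply Nat.le_log_of_pow_le hp.one_lt
        rw [hpk]; exact hdT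
      rw [← hpk]
      exact (pow_dvd_pow p hkl).trans (dvd_prod_of_mem (fun p => p ^ (Nat.log p T)) hpP)
    · intro _ _ _
      exact ArithmeticFunction.vonMangoldt_nonneg
  refine h1.trans ?_
  rw [ArithmeticFunction.vonMangoldt_sum, hQ]
  push_cast
  rw [Real.log_prod (fun p hp => by
    have := (mem_filter.1 hp).2.pos
    positivity)]
  have h2 : ∀ p ∈ P, Real.log ((p : ℝ) ^ (Nat.log p T)) ≤ Real.log t := by
    intro p hp
    have hp0 := (mem_filter.1 hp).2.pos
    apply Real.log_le_log (by positivity)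
    have h3 : p ^ (Nat.log p T) ≤ T := Nat.pow_log_le_self p (by omega)
    have h4 : ((p ^ (Nat.log p T) : ℕ) : ℝ) ≤ T := by exact_mod_cast h3
    have h5 : (T : ℝ) ≤ t := Nat.floor_le (by linarith)
    push_cast at h4
    linarith
  refine (sum_le_sum h2).trans ?_
  rw [sum_const, nsmul_eq_mul]
  apply mul_le_mul_of_nonneg_right _ (Real.log_nonneg ht)
  have h3 : P.card = Nat.primeCounting v := by
    rw [hP, Nat.primeCounting, Nat.primeCounting', Nat.count_eq_card_filter_range]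
    congr 1
    ext p
    simp only [mem_filter, mem_Icc, mem_range]
    constructor
    · rintro ⟨⟨_, h⟩, hp⟩
      exact ⟨by omega, hp⟩
    · rintro ⟨h, hp⟩
      exact ⟨⟨hp.one_lt.le, by omega⟩, hp⟩
  rw [h3]

theorem pi_bd (v : ℕ) (hv : 2 ≤ v) : (Nat.primeCounting v : ℝ) ≤ 5 * (v / Real.log v) := by
  have hv2 : (2 : ℝ) ≤ v := by exact_mod_cast hv
  have h := Chebyshev.pi_le_log4_mul_div (x := (v : ℝ)) (by linarith)
  rw [Nat.floor_natCast] at h
  have hl : 0 < Real.log v := Real.log_pos (by linarith)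
  have h1 : Real.log (Real.sqrt v) = Real.log v / 2 := Real.log_sqrt (by linarith)
  rw [h1] at h
  have hs : 0 < Real.sqrt v := Real.sqrt_pos.2 (by linarith)
  have hss : Real.sqrt v * Real.sqrt v = v := Real.mul_self_sqrt (by linarith)
  have h2 : Real.sqrt v ≤ 2 * (v / Real.log v) := by
    rw [mul_div_assoc', le_div_iff₀ hl]
    have h3 : Real.log (Real.sqrt v) ≤ Real.sqrt v - 1 := Real.log_le_sub_one_of_pos hs
    nlinarith
  have h3 : Real.log 4 * v / (Real.log v / 2) ≤ 3 * (v / Real.log v) := by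
    have h4 : Real.log 4 ≤ 3 / 2 := by
      rw [show (4 : ℝ) = 2 ^ 2 by norm_num, Real.log_pow]
      have := Real.log_two_lt_d9
      push_cast; linarith
    have h5 : Real.log 4 * v / (Real.log v / 2) = 2 * Real.log 4 * (v / Real.log v) := by
      field_simp
    rw [h5]
    apply mul_le_mul_of_nonneg_right _ (by positivity)
    linarith
  linarith

theorem psi_smooth (v N : ℕ) (hv : 2 ≤ v) (σ t : ℝ) (hσ : 1 / 2 ≤ σ) (hσ1 : σ ≤ 1) (ht : 1 ≤ t) :
    ∑ d ∈ (Sm v N).filter (fun d : ℕ => (d : ℝ) ≤ t), ArithmeticFunction.vonMangoldt d ≤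
      20 * ((v : ℝ) ^ (1 - σ) * t ^ σ) := by
  have hv2 : (2 : ℝ) ≤ v := by exact_mod_cast hv
  have ht0 : 0 < t := by linarith
  have hv0 : (0:ℝ) < v := by linarith
  rcases le_or_gt t v with htv | htv
  · have h1 : ∑ d ∈ (Sm v N).filter (fun d : ℕ => (d : ℝ) ≤ t), ArithmeticFunction.vonMangoldt d ≤
        Chebyshev.psi t := by
      unfold Chebyshev.psi
      apply sum_le_sum_of_subset_of_nonneg
      · intro d hd
        rw [mem_filter, mem_Sm] at hd
        rw [mem_Ioc]
        exact ⟨hd.1.1.1, Nat.le_floor hd.2⟩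
      · intro _ _ _
        exact ArithmeticFunction.vonMangoldt_nonneg
    have h2 := Chebyshev.psi_le_const_mul_self ht0.le
    have h3 : Real.log 4 ≤ 3 / 2 := by
      rw [show (4 : ℝ) = 2 ^ 2 by norm_num, Real.log_pow]
      have := Real.log_two_lt_d9
      push_cast; linarith
    have h4 : t ≤ (v : ℝ) ^ (1 - σ) * t ^ σ := by
      calc t = t ^ (1 - σ) * t ^ σ := by
            rw [← Real.rpow_add ht0]; simp
        _ ≤ (v : ℝ) ^ (1 - σ) * t ^ σ := by
            apply mul_le_mul_of_nonneg_right _ (by positivity)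
            exact Real.rpow_le_rpow ht0.le htv (by linarith)
    have h5 : (Real.log 4 + 4) * t ≤ 20 * t := mul_le_mul_of_nonneg_right (by linarith) ht0.le
    linarith
  · have h1 := psi_smooth1 v N t ht
    have h2 := pi_bd v hv
    have hlv : 0 < Real.log v := Real.log_pos (by linarith)
    have hlt : 0 ≤ Real.log t := Real.log_nonneg ht
    obtain ⟨w, hw⟩ : ∃ w, w = t / v := ⟨_, rfl⟩
    have hw1 : 1 ≤ w := by rw [hw, le_div_iff₀ hv0]; linarith
    have hw0 : 0 < w := by linarith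
    have htw : t = v * w := by rw [hw]; field_simp
    have hlog : Real.log t = Real.log v + Real.log w := by
      rw [htw, Real.log_mul hv0.ne' hw0.ne']
    have hl2 : (1 : ℝ) / 2 ≤ Real.log v := by
      have h3 : Real.log 2 ≤ Real.log v := Real.log_le_log (by norm_num) hv2
      have := Real.log_two_gt_d9
      linarith
    have hlw : Real.log w ≤ 2 * (Real.sqrt w - 1) := by
      have h3 : Real.log (Real.sqrt w) ≤ Real.sqrt w - 1 :=
        Real.log_le_sub_one_of_pos (Real.sqrt_pos.2 hw0)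
      rw [Real.log_sqrt hw0.le] at h3
      linarith
    have hsw : Real.sqrt w ≤ w ^ σ := by
      rw [Real.sqrt_eq_rpow]
      exact Real.rpow_le_rpow_of_exponent_le hw1 hσ
    have hsw1 : 1 ≤ Real.sqrt w := Real.one_le_sqrt.2 hw1
    calc ∑ d ∈ (Sm v N).filter (fun d : ℕ => (d : ℝ) ≤ t), ArithmeticFunction.vonMangoldt d
        ≤ Nat.primeCounting v * Real.log t := h1
      _ ≤ 5 * (v / Real.log v) * Real.log t := mul_le_mul_of_nonneg_right h2 hlt
      _ = 5 * v * (1 + Real.log w / Real.log v) := by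
          rw [hlog]; field_simp
      _ ≤ 5 * v * (4 * Real.sqrt w) := by
          apply mul_le_mul_of_nonneg_left _ (by positivity)
          have h5 : Real.log w / Real.log v ≤ 2 * Real.log w := by
            rw [div_le_iff₀ hlv]
            have h6 : 0 ≤ Real.log w := Real.log_nonneg hw1
            nlinarith
          linarith
      _ ≤ 5 * v * (4 * w ^ σ) := by
          apply mul_le_mul_of_nonneg_left _ (by positivity)
          linarith
      _ = 20 * ((v : ℝ) ^ (1 - σ) * t ^ σ) := by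
          rw [htw, Real.mul_rpow hv0.le hw0.le]
          have : (v : ℝ) ^ (1 - σ) * ((v : ℝ) ^ σ * w ^ σ) = v * w ^ σ := by
            rw [← mul_assoc, ← Real.rpow_add hv0]; simp
          rw [this]; ring

theorem sum_log_le2 (v N : ℕ) (hv : 2 ≤ v) (hN : 1 ≤ N) (σ : ℝ) (hσ : 1 / 2 ≤ σ) (hσ1 : σ ≤ 1) :
    ∑ n ∈ Sm v N, Real.log n ≤ 20 * ((v : ℝ) ^ (1 - σ) * (N : ℝ) ^ σ) *
      ∏ p ∈ Pz v, (1 - (p : ℝ) ^ (-σ))⁻¹ := by
  refine (sum_log_le v N).trans ?_
  have h1 : ∀ m ∈ Sm v N, ∑ d ∈ (Sm v N).filter (fun d => m * d ≤ N), ArithmeticFunction.vonMangoldt d ≤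
      20 * ((v : ℝ) ^ (1 - σ) * (N : ℝ) ^ σ) * (m : ℝ) ^ (-σ) := by
    intro m hm
    obtain ⟨⟨hm1, hm2⟩, hm3⟩ := mem_Sm.1 hm
    have hm0 : (0:ℝ) < m := by exact_mod_cast hm1
    have hmN : (m : ℝ) ≤ N := by exact_mod_cast hm2
    have h2 := psi_smooth v N hv σ (N / m) hσ hσ1 (by rw [le_div_iff₀ hm0]; linarith)
    have h3 : (Sm v N).filter (fun d => m * d ≤ N) = (Sm v N).filter (fun d : ℕ => (d : ℝ) ≤ N / m) := by
      apply filter_congr
      intro d _
      rw [le_div_iff₀ hm0]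
      constructor
      · intro h
        have : ((m * d : ℕ) : ℝ) ≤ N := by exact_mod_cast h
        push_cast at this
        linarith
      · intro h
        have : ((m * d : ℕ) : ℝ) ≤ N := by push_cast; linarith
        exact_mod_cast this
    rw [h3]
    refine h2.trans (le_of_eq ?_)
    rw [Real.div_rpow (by positivity) hm0.le, Real.rpow_neg hm0.le]
    ring
  refine (sum_le_sum h1).trans ?_
  rw [← mul_sum]
  apply mul_le_mul_of_nonneg_left _ (by positivity)
  have h2 := smooth_tsum (σ := σ) (by linarith) v N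
  exact h2

theorem card_Sm_le (v N : ℕ) (hN : 2 ≤ N) (B : ℝ) (hB : ∑ n ∈ Sm v N, Real.log n ≤ B) :
    ((Sm v N).card : ℝ) ≤ Real.sqrt N + 2 * B / Real.log N := by
  have hN2 : (2 : ℝ) ≤ N := by exact_mod_cast hN
  have hl : 0 < Real.log N := Real.log_pos (by linarith)
  have hs := Real.sqrt_nonneg (N : ℝ)
  set S1 := (Sm v N).filter (fun n : ℕ => (n : ℝ) ≤ Real.sqrt N) with hS1
  set S2 := (Sm v N).filter (fun n : ℕ => ¬ (n : ℝ) ≤ Real.sqrt N) with hS2
  have h1 : (S1.card : ℝ) ≤ Real.sqrt N := by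
    have h2 : S1 ⊆ Icc 1 ⌊Real.sqrt N⌋₊ := by
      intro n hn
      rw [hS1, mem_filter, mem_Sm] at hn
      rw [mem_Icc]
      exact ⟨hn.1.1.1, Nat.le_floor hn.2⟩
    have h3 := card_le_card h2
    rw [Nat.card_Icc, Nat.add_sub_cancel] at h3
    have h4 : (S1.card : ℝ) ≤ ⌊Real.sqrt N⌋₊ := by exact_mod_cast h3
    exact h4.trans (Nat.floor_le hs)
  have h2 : (S2.card : ℝ) * (Real.log N / 2) ≤ B := by
    refine le_trans ?_ hB
    calc (S2.card : ℝ) * (Real.log N / 2) = ∑ n ∈ S2, (Real.log N / 2) := by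
          rw [sum_const, nsmul_eq_mul]
      _ ≤ ∑ n ∈ S2, Real.log n := by
          apply sum_le_sum
          intro n hn
          rw [hS2, mem_filter] at hn
          rw [← Real.log_sqrt (by linarith)]
          apply Real.log_le_log (Real.sqrt_pos.2 (by linarith))
          linarith [not_le.1 hn.2]
      _ ≤ ∑ n ∈ Sm v N, Real.log n := by
          apply sum_le_sum_of_subset_of_nonneg (filter_subset _ _)
          intro n hn _
          exact Real.log_nonneg (by exact_mod_cast (mem_Sm.1 hn).1.1)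
  have h3 : (Sm v N).card = S1.card + S2.card := by
    rw [hS1, hS2]
    exact (card_filter_add_card_filter_not _).symm
  rw [h3]
  push_cast
  have h4 : (S2.card : ℝ) ≤ 2 * B / Real.log N := by
    rw [le_div_iff₀ hl]
    linarith
  linarith

/-- `Ψ(x, y) ≤ C x exp (- (u log u) / 4)`, `u = log x / log y ≥ 100` -/
theorem smoothA : ∃ C K : ℝ, 1 ≤ C ∧ 1 ≤ K ∧ ∀ (N : ℕ) (u Z : ℝ), (N : ℝ) = Real.exp (u * Z) →
    100 ≤ u → K ≤ Z → Real.log u ≤ Z / 2 →
    ((Sm ⌊Real.exp Z⌋₊ N).card : ℝ) ≤ C * (N * Real.exp (-(u * Real.log u / 4))) := by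
  obtain ⟨C, hC, hE⟩ := euler_le
  refine ⟨1 + 40 * C, max 1 (4 * C), by nlinarith, le_max_left _ _, fun N u Z hN hu hZ hlu => ?_⟩
  have hZ1 : 1 ≤ Z := (le_max_left _ _).trans hZ
  have hZC : 4 * C ≤ Z := (le_max_right _ _).trans hZ
  have hZ0 : 0 < Z := by linarith
  have hu0 : 0 < u := by linarith
  set v := ⌊Real.exp Z⌋₊ with hv
  have hexpZ : 2 ≤ Real.exp Z := by
    have := Real.add_one_le_exp Z
    linarith
  have hv2 : 2 ≤ v := Nat.le_floor (by exact_mod_cast hexpZ)
  have hv2' : (2:ℝ) ≤ v := by exact_mod_cast hv2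
  have hvle : (v : ℝ) ≤ Real.exp Z := Nat.floor_le (Real.exp_pos _).le
  have hlv : Real.log v ≤ Z := by
    rw [Real.log_le_iff_le_exp (by linarith)]
    exact hvle
  have hlv0 : 0 < Real.log v := Real.log_pos (by linarith)
  have huZ : 100 ≤ u * Z := by nlinarith
  have hN2 : 2 ≤ N := by
    have h1 : (2 : ℝ) ≤ N := by
      rw [hN]
      have := Real.add_one_le_exp (u * Z)
      linarith
    exact_mod_cast h1
  have hN0 : (0:ℝ) < N := by rw [hN]; exact Real.exp_pos _
  have hlN : Real.log N = u * Z := by rw [hN, Real.log_exp]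
  set lu := Real.log u with hlu'
  have hlu0 : 0 < lu := Real.log_pos (by linarith)
  set β := lu / 2 with hβ
  set η := β / Z with hη
  have hη0 : 0 ≤ η := by positivity
  have hη1 : η ≤ 1 / 4 := by
    rw [hη, div_le_iff₀ hZ0]
    linarith
  have hβη : η * Z = β := by rw [hη]; field_simp
  have hsu : Real.exp β = Real.sqrt u := by
    rw [hβ, Real.sqrt_eq_rpow, Real.rpow_def_of_pos hu0, ← hlu']
    ring_nf
  have hsu10 : 10 ≤ Real.sqrt u := by
    apply Real.le_sqrt_of_sq_le
    linarith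
  have hsu2 : Real.sqrt u * Real.sqrt u = u := Real.mul_self_sqrt hu0.le
  have hvη : (v : ℝ) ^ η ≤ Real.sqrt u := by
    calc (v : ℝ) ^ η ≤ (Real.exp Z) ^ η := Real.rpow_le_rpow (by linarith) hvle hη0
      _ = Real.exp (η * Z) := by rw [← Real.exp_mul, mul_comm]
      _ = Real.sqrt u := by rw [hβη, hsu]
  have h1 := sum_log_le2 v N hv2 (by omega) (1 - η) (by linarith) (by linarith)
  have h2 := hE η v hη0 hη1 hv2
  have h3 : (1 - (1 - η)) = η := by ring
  rw [h3] at h1
  have h4 : ∏ p ∈ Pz v, (1 - (p : ℝ) ^ (-(1 - η)))⁻¹ ≤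
      C * Z * Real.exp (5 * (β * Real.sqrt u)) := by
    refine h2.trans ?_
    have e1 : 4 * η * (v : ℝ) ^ η * (Real.log v + C) ≤ 5 * (β * Real.sqrt u) := by
      calc 4 * η * (v : ℝ) ^ η * (Real.log v + C) ≤ 4 * η * Real.sqrt u * (Z + Z / 4) := by
            gcongr
            linarith
        _ = 5 * (η * Z * Real.sqrt u) := by ring
        _ = _ := by rw [hβη]
    gcongr
  have h5 : (N : ℝ) ^ (1 - η) = N * Real.exp (-(β * u)) := by
    rw [Real.rpow_sub hN0, Real.rpow_one, Real.rpow_def_of_pos hN0, hlN, div_eq_mul_inv, ← Real.exp_neg]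
    congr 2
    rw [← hβη]; ring
  have hB : ∑ n ∈ Sm v N, Real.log n ≤ 20 * (Real.sqrt u * (N * Real.exp (-(β * u)))) *
      (C * Z * Real.exp (5 * (β * Real.sqrt u))) := by
    refine h1.trans ?_
    rw [h5]
    apply mul_le_mul _ h4
    · apply prod_nonneg
      intro p hp
      obtain ⟨hpp, hpv⟩ := mem_Pz.1 hp
      have := pow_lt_one' (σ := 1 - η) (by linarith) hpp
      exact inv_nonneg.2 (by linarith)
    · positivity
    · gcongr
  have h6 := card_Sm_le v N hN2 _ hB
  refine h6.trans ?_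
  have h7 : Real.sqrt N ≤ N * Real.exp (-(u * lu / 4)) := by
    have e1 : Real.sqrt N = Real.exp (u * Z / 2) := by
      rw [hN, Real.sqrt_eq_rpow, ← Real.exp_mul]
      ring_nf
    rw [e1, hN, ← Real.exp_add]
    apply Real.exp_le_exp.2
    nlinarith
  have h8 : 2 * (20 * (Real.sqrt u * (N * Real.exp (-(β * u)))) *
      (C * Z * Real.exp (5 * (β * Real.sqrt u)))) / Real.log N ≤
      40 * C * (N * Real.exp (-(u * lu / 4))) := by
    rw [hlN]
    have e1 : 2 * (20 * (Real.sqrt u * (N * Real.exp (-(β * u)))) *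
      (C * Z * Real.exp (5 * (β * Real.sqrt u)))) / (u * Z) =
      40 * C * (N * (Real.sqrt u / u * (Real.exp (-(β * u)) * Real.exp (5 * (β * Real.sqrt u))))) := by
      field_simp
      ring
    rw [e1, ← Real.exp_add]
    apply mul_le_mul_of_nonneg_left _ (by positivity)
    apply mul_le_mul_of_nonneg_left _ hN0.le
    have e2 : Real.sqrt u / u ≤ 1 := by
      rw [div_le_one hu0]
      nlinarith
    calc Real.sqrt u / u * Real.exp (-(β * u) + 5 * (β * Real.sqrt u)) ≤
          1 * Real.exp (-(β * u) + 5 * (β * Real.sqrt u)) :=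
          mul_le_mul_of_nonneg_right e2 (Real.exp_pos _).le
      _ ≤ Real.exp (-(u * lu / 4)) := by
          rw [one_mul]
          apply Real.exp_le_exp.2
          rw [hβ]
          have e3 : 5 / 2 * Real.sqrt u ≤ u / 4 := by nlinarith
          have e4 := mul_le_mul_of_nonneg_left e3 hlu0.le
          linarith
  have h9 : (1 + 40 * C) * (N * Real.exp (-(u * lu / 4))) =
      N * Real.exp (-(u * lu / 4)) + 40 * C * (N * Real.exp (-(u * lu / 4))) := by ring
  linarith

end Pool.Agent.K4H15
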