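import Pool.Agent.H510R2.Maier.MB9
import Pool.Agent.K4H15.SmoothA

set_option autoImplicit false
set_option linter.unusedVariables false

/-! # Windows with many primes, uniformly in the length -/

namespace Pool.Agent.K4H15

open Finset Filter Topology Pool.Agent.H378R2 Pool.Agent.H510R2.Maier Pool.Agent.H510R2.Maier.G

theorem BE_le (D : ℝ) (hD : 1000 ≤ D) (X : ℝ) (hX : 1 ≤ X) (S : Finset ℕ) (ps Z : ℕ) (hps : GoodP Z ps)
    (hZ : 0 < Z) (s : ℝ) (hs : ∑ q ∈ S, (1 : ℝ) / q ≤ s) (hs1 : 0 < 1 - s - 1 / Z) :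
    BE (PD X D S ps) ≤ QQ (⌊Real.log X / D⌋₊) / (1 - s - 1 / Z) := by
  classical
  set A := PD X D S ps with hA
  set R := (PI 0 (⌊Real.log X / D⌋₊)).filter (fun p => p ∈ S ∨ p = ps) with hR
  have hAR : PI 0 (⌊Real.log X / D⌋₊) = A ∪ R := by
    ext p
    rw [Finset.mem_union, hA, hR, Finset.mem_filter, mem_PD hD hX, mem_PI]
    constructor
    · rintro ⟨⟨h1, h2⟩, h3⟩
      by_cases h4 : p ∈ S ∨ p = ps
      · exact Or.inr ⟨⟨⟨h1, h2⟩, h3⟩, h4⟩
      · push Not at h4
        exact Or.inl ⟨h2, h3, h4.1, h4.2⟩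
    · rintro (⟨h2, h3, _, _⟩ | ⟨h, _⟩)
      · exact ⟨⟨h3.pos, h2⟩, h3⟩
      · exact h
  have hdis : Disjoint A R := by
    rw [Finset.disjoint_left]
    intro p hp hp'
    rw [hA, mem_PD hD hX] at hp
    rw [hR, Finset.mem_filter] at hp'
    rcases hp'.2 with h | h
    · exact hp.2.2.1 h
    · exact hp.2.2.2 h
  have hprod : ∏ p ∈ PI 0 (⌊Real.log X / D⌋₊), (1 - 1 / (p : ℝ)) = BE A * ∏ p ∈ R, (1 - 1 / (p : ℝ)) := by
    unfold BE
    rw [hAR, Finset.prod_union hdis]
  have hRs : 1 - s - 1 / Z ≤ ∏ p ∈ R, (1 - 1 / (p : ℝ)) := by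
    have h1 := weier R (fun p => 1 / (p : ℝ)) (fun i _ => by positivity) (fun i hi => by
      have := (mem_PI.1 (Finset.mem_filter.1 hi).1).2.one_lt.le
      have h2 : (1 : ℝ) ≤ i := by exact_mod_cast this
      rw [div_le_one (by linarith)]
      exact h2)
    refine le_trans ?_ h1
    have h2 : ∑ p ∈ R, (1 : ℝ) / p ≤ s + 1 / Z := by
      have h3 : R ⊆ S ∪ ({ps} : Finset ℕ).filter (fun p => Z < p) := by
        intro p hp
        rw [hR, Finset.mem_filter, mem_PI] at hp
        rw [Finset.mem_union, Finset.mem_filter, Finset.mem_singleton]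
        rcases hp.2 with h | h
        · exact Or.inl h
        · refine Or.inr ⟨h, ?_⟩
          rcases hps with h5 | h5
          · rw [h5] at h
            have := hp.1.2.one_lt
            omega
          · rw [h]; exact h5.2
      calc ∑ p ∈ R, (1 : ℝ) / p ≤ ∑ p ∈ S ∪ ({ps} : Finset ℕ).filter (fun p => Z < p), (1 : ℝ) / p :=
            Finset.sum_le_sum_of_subset_of_nonneg h3 fun _ _ _ => by positivity
        _ ≤ ∑ p ∈ S, (1 : ℝ) / p + ∑ p ∈ ({ps} : Finset ℕ).filter (fun p => Z < p), (1 : ℝ) / p := by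
            have := Finset.sum_union_inter (s₁ := S) (s₂ := ({ps} : Finset ℕ).filter (fun p => Z < p)) (f := fun p : ℕ => (1 : ℝ) / p)
            have h4 : 0 ≤ ∑ p ∈ S ∩ ({ps} : Finset ℕ).filter (fun p => Z < p), (1 : ℝ) / p :=
              Finset.sum_nonneg fun _ _ => by positivity
            linarith
        _ ≤ s + 1 / Z := by
            apply add_le_add hs
            have hw' : (0 : ℝ) < Z := by exact_mod_cast hZ
            by_cases h5 : Z < ps
            · have h6 : ({ps} : Finset ℕ).filter (fun p => Z < p) = {ps} := by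
                rw [Finset.filter_eq_self]
                intro x hx
                rw [Finset.mem_singleton.1 hx]; exact h5
              rw [h6, Finset.sum_singleton]
              have : (Z : ℝ) ≤ ps := by exact_mod_cast h5.le
              gcongr
            · have h6 : ({ps} : Finset ℕ).filter (fun p => Z < p) = ∅ := by
                rw [Finset.filter_eq_empty_iff]
                intro x hx
                rw [Finset.mem_singleton.1 hx]; exact h5
              rw [h6, Finset.sum_empty]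
              positivity
    linarith
  have hAp : ∀ p ∈ A, p.Prime := fun p hp => PD_prime hp
  have hA0 : 0 < BE A := BE_pos hAp
  have hQ := QQ_split (Nat.zero_le ⌊Real.log X / D⌋₊)
  have hQ0 : QQ 0 = 1 := by unfold QQ; simp
  rw [hprod, hQ0, one_mul] at hQ
  rw [le_div_iff₀ hs1]
  calc BE A * (1 - s - 1 / Z) ≤ BE A * ∏ p ∈ R, (1 - 1 / (p : ℝ)) := by gcongr
    _ = QQ (⌊Real.log X / D⌋₊) := hQ.symm

/-- the density of the large sieving range, lower bound -/
theorem QQ_ev2 (D : ℝ) (hD : 1000 ≤ D) (δ : ℝ) (hδ : 0 < δ) : ∀ᶠ L : ℝ in atTop,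
    (Real.exp Real.eulerMascheroniConstant - δ) * Real.log L ≤ (QQ ⌊L / D⌋₊)⁻¹ := by
  have hD0 : 0 < D := by linarith
  have h1 := QQ_real.comp (tendsto_id.atTop_div_const hD0)
  have t0 := tlog (1 / D) 1 (by positivity)
  have h2 := h1.mul t0
  rw [mul_one] at h2
  have h3 := h2.eventually_const_lt (show Real.exp Real.eulerMascheroniConstant - δ <
    Real.exp Real.eulerMascheroniConstant by linarith)
  filter_upwards [h3, eventually_gt_atTop D] with L h3 h4
  simp only [Function.comp, id, Real.rpow_one] at h3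
  have hL0 : 0 < L := by linarith
  have h5 : 0 < Real.log (L / D) := Real.log_pos (by rw [lt_div_iff₀ hD0]; linarith)
  have h6 : 0 < Real.log L := Real.log_pos (by linarith)
  have h7 : 1 / D * L = L / D := by ring
  rw [h7] at h3
  have h8 : (QQ ⌊L / D⌋₊)⁻¹ / Real.log (L / D) * (Real.log (L / D) / Real.log L) =
      (QQ ⌊L / D⌋₊)⁻¹ / Real.log L := by
    field_simp
  rw [h8, lt_div_iff₀ h6] at h3
  exact h3.le

theorem card_PI (a N : ℕ) (h : a ≤ N) : ((PI a N).card : ℝ) = (Nat.primeCounting N : ℝ) - Nat.primeCounting a := by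
  have h1 : (Icc 1 N).filter Nat.Prime = (Icc 1 a).filter Nat.Prime ∪ PI a N := by
    ext p
    rw [Finset.mem_union, mem_PI, Finset.mem_filter, Finset.mem_filter, Finset.mem_Icc, Finset.mem_Icc]
    constructor
    · rintro ⟨⟨h1, h2⟩, h3⟩
      rcases le_or_gt p a with h4 | h4
      · exact Or.inl ⟨⟨h1, h4⟩, h3⟩
      · exact Or.inr ⟨⟨h4, h2⟩, h3⟩
    · rintro (⟨⟨h1, h2⟩, h3⟩ | ⟨⟨h1, h2⟩, h3⟩)
      · exact ⟨⟨h1, h2.trans h⟩, h3⟩
      · exact ⟨⟨h3.one_lt.le, h2⟩, h3⟩
  have h2 : Disjoint ((Icc 1 a).filter Nat.Prime) (PI a N) := by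
    rw [Finset.disjoint_left]
    intro p hp hp'
    rw [Finset.mem_filter, Finset.mem_Icc] at hp
    rw [mem_PI] at hp'
    omega
  have h3 : ∀ v : ℕ, ((Icc 1 v).filter Nat.Prime).card = Nat.primeCounting v := by
    intro v
    rw [Nat.primeCounting, Nat.primeCounting', Nat.count_eq_card_filter_range]
    congr 1
    ext p
    simp only [mem_filter, mem_Icc, mem_range]
    constructor
    · rintro ⟨⟨_, h⟩, hp⟩
      exact ⟨by omega, hp⟩
    · rintro ⟨h, hp⟩
      exact ⟨⟨hp.one_lt.le, by omega⟩, hp⟩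
  have h4 := Finset.card_union_of_disjoint h2
  rw [← h1, h3, h3] at h4
  rw [h4]; push_cast; ring

theorem VV_ge (D : ℝ) (hD : 1000 ≤ D) (X : ℝ) (hX : 1 ≤ X) (S : Finset ℕ) (ps Y : ℕ) :
    (PI ⌊Real.log X / D⌋₊ Y).card ≤ VV (WD X D S ps) 0 Y := by
  unfold VV
  apply Finset.card_le_card
  intro q hq
  rw [mem_PI] at hq
  rw [Finset.mem_filter, Finset.mem_Icc, zero_add]
  refine ⟨⟨hq.2.one_lt.le, hq.1.2⟩, ?_⟩
  rw [Nat.Prime.coprime_iff_not_dvd hq.2]
  intro hd
  unfold WD at hd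
  rw [Prime.dvd_finsetProd_iff hq.2.prime] at hd
  obtain ⟨p, hp, hqp⟩ := hd
  have h1 := (mem_PD hD hX).1 hp
  have h2 := (Nat.prime_dvd_prime_iff_eq hq.2 h1.2.1).1 hqp
  have := h1.1
  have := hq.1.1
  omega

/-- the primes of the window `(z, h]` -/
theorem primes_ev (ε D : ℝ) (hε : 0 < ε) (hε1 : ε ≤ 1 / 8) (hD : 1000 ≤ D) : ∀ᶠ L : ℝ in atTop, ∀ h : ℕ,
    1 / ε * L ≤ h → (h : ℝ) ≤ L ^ (1 + ε) →
    (1 - 4 * ε) * (h / Real.log L) ≤ ((PI ⌊L / D⌋₊ h).card : ℝ) - 80 := by
  have hD0 : 0 < D := by linarith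
  have h1 := Pool.Agent.Helper601.PNT.pi_tendsto.comp (tendsto_natCast_atTop_atTop (R := ℝ))
  have h2 := h1.eventually_const_lt (show 1 - ε < (1:ℝ) by linarith)
  obtain ⟨N₀, hN₀⟩ := eventually_atTop.1 h2
  have a1 : ∀ᶠ L : ℝ in atTop, (N₀ : ℝ) ≤ L := eventually_ge_atTop _
  have a2 := G.log_z D hD
  have a3 : ∀ᶠ L : ℝ in atTop, 80 * Real.log L ≤ L := by
    have e := Real.isLittleO_log_id_atTop.def (show (0:ℝ) < 1 / 80 by norm_num)
    filter_upwards [e, eventually_ge_atTop (1:ℝ)] with x hx hx1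
    rw [Real.norm_eq_abs, Real.norm_eq_abs, abs_of_nonneg (Real.log_nonneg hx1), id,
      abs_of_nonneg (by linarith)] at hx
    linarith
  have a4 : ∀ᶠ L : ℝ in atTop, 3 * D ≤ L := eventually_ge_atTop _
  filter_upwards [a1, a2, a3, a4] with L b1 b2 b3 b4
  intro h hh1 hh2
  have hL0 : 0 < L := by linarith
  have hl : 0 < Real.log L := Real.log_pos (by linarith)
  have hLh : L ≤ ε * h := by
    have : ε * (1 / ε * L) ≤ ε * h := mul_le_mul_of_nonneg_left hh1 hε.le
    have e : ε * (1 / ε * L) = L := by field_simp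
    linarith
  have hh0 : (0:ℝ) ≤ h := Nat.cast_nonneg _
  have hLh' : L ≤ h := by nlinarith
  have hhpos : (0:ℝ) < h := by linarith
  have hhN : N₀ ≤ h := by
    have : (N₀ : ℝ) ≤ h := by linarith
    exact_mod_cast this
  have hlh : 0 < Real.log h := Real.log_pos (by linarith)
  have h3 := hN₀ h hhN
  simp only [Function.comp, Nat.floor_natCast] at h3
  rw [lt_div_iff₀ hhpos] at h3
  have hlogh : Real.log h ≤ (1 + ε) * Real.log L := by
    rw [← Real.log_rpow hL0]
    exact Real.log_le_log hhpos hh2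
  have hπ : (1 - 2 * ε) * (h / Real.log L) ≤ (Nat.primeCounting h : ℝ) := by
    have e1 : (1 - ε) * h / Real.log h ≤ (Nat.primeCounting h : ℝ) := by
      rw [div_le_iff₀ hlh]; exact h3.le
    refine le_trans ?_ e1
    rw [le_div_iff₀ hlh]
    calc (1 - 2 * ε) * (h / Real.log L) * Real.log h ≤
          (1 - 2 * ε) * (h / Real.log L) * ((1 + ε) * Real.log L) := by
          apply mul_le_mul_of_nonneg_left hlogh
          apply mul_nonneg (by linarith) (by positivity)
      _ = ((1 - 2 * ε) * (1 + ε)) * h := by field_simp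
      _ ≤ (1 - ε) * h := by
          apply mul_le_mul_of_nonneg_right _ hh0
          nlinarith
  set z := ⌊L / D⌋₊ with hz
  have hz2 : 2 ≤ z := by
    apply Nat.le_floor
    rw [le_div_iff₀ hD0]
    push_cast
    linarith
  have hzh : z ≤ h := by
    have h5 : (z : ℝ) ≤ L / D := Nat.floor_le (by positivity)
    have h6 : L / D ≤ L := div_le_self hL0.le (by linarith)
    have : (z : ℝ) ≤ h := by linarith
    exact_mod_cast this
  have hπz : (Nat.primeCounting z : ℝ) ≤ ε * (h / Real.log L) := by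
    have e1 := pi_bd z hz2
    have h5 : (z : ℝ) ≤ L / 1000 := by
      have h5 : (z : ℝ) ≤ L / D := Nat.floor_le (by positivity)
      have h6 : L / D ≤ L / 1000 := div_le_div_of_nonneg_left hL0.le (by norm_num) hD
      linarith
    refine e1.trans ?_
    have e2 : (z : ℝ) / Real.log z ≤ (L / 1000) / (Real.log L / 2) := by
      apply div_le_div₀ (by positivity) h5 (by positivity) b2
    calc 5 * ((z : ℝ) / Real.log z) ≤ 5 * ((L / 1000) / (Real.log L / 2)) := by gcongr
      _ = 1 / 100 * (L / Real.log L) := by field_simp; norm_num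
      _ ≤ 1 * (L / Real.log L) := by
          apply mul_le_mul_of_nonneg_right (by norm_num) (by positivity)
      _ ≤ (ε * h) / Real.log L := by
          rw [one_mul]
          exact div_le_div_of_nonneg_right hLh hl.le
      _ = ε * (h / Real.log L) := by ring
  have h80 : 80 ≤ ε * (h / Real.log L) := by
    rw [mul_div_assoc', le_div_iff₀ hl]
    linarith
  rw [card_PI z h hzh]
  have : (1 - 4 * ε) * (h / Real.log L) = (1 - 2 * ε) * (h / Real.log L) - ε * (h / Real.log L) -
      ε * (h / Real.log L) := by ring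
  rw [this]
  linarith

theorem E_lt : Real.exp Real.eulerMascheroniConstant < 2 := by
  have h1 := Real.eulerMascheroniConstant_lt_two_thirds
  have h2 : Real.exp Real.eulerMascheroniConstant < Real.exp (2 / 3) := Real.exp_lt_exp.2 h1
  have h3 : Real.exp (2 / 3) ≤ 2 := by
    rw [← Real.le_log_iff_exp_le (by norm_num)]
    have := Real.log_two_gt_d9
    linarith
  linarith

set_option maxHeartbeats 4000000 in
theorem many (ε η : ℝ) (hε : 0 < ε) (hε1 : ε ≤ 1) (hη : 0 < η) : ∃ A δ X₀ : ℝ, 0 < A ∧ 0 < δ ∧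
    ∀ X : ℝ, X₀ ≤ X → ∀ h : ℕ, A * Real.log X ≤ h → (h : ℝ) ≤ (Real.log X) ^ (1 + δ) →
    (3 * X) ^ (1 - η) ≤ ((rowset X (fun n => (Real.exp Real.eulerMascheroniConstant - ε) *
      (h / Real.log X) ≤ cnt n h)).card : ℝ) := by
  classical
  set E := Real.exp Real.eulerMascheroniConstant with hE
  have hE2 : E < 2 := E_lt
  have hE1 : 1 ≤ E := Real.one_le_exp (by
    have := Real.one_half_lt_eulerMascheroniConstant
    linarith)
  set ε₁ := ε / 40 with hε₁
  have hε₁0 : 0 < ε₁ := by positivity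
  have hε₁1 : ε₁ ≤ 1 / 40 := by rw [hε₁]; linarith
  set Z := ⌈1 / ε₁⌉₊ with hZ
  have hZ1 : 1 / ε₁ ≤ Z := Nat.le_ceil _
  have hZ0' : (0:ℝ) < Z := lt_of_lt_of_le (by positivity) hZ1
  have hZ0 : 0 < Z := by exact_mod_cast hZ0'
  have hZ2 : 1 / (Z : ℝ) ≤ ε₁ := by
    rw [div_le_iff₀ hε₁0] at hZ1
    rw [div_le_iff₀ hZ0']
    linarith
  set D : ℝ := max 1000 (3 / η) with hDdef
  have hD : 1000 ≤ D := le_max_left _ _
  have hD2 : 3 / η ≤ D := le_max_right _ _
  have hD0 : 0 < D := by linarith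
  obtain ⟨X0, hX0⟩ := rows_sums (ε₁ / 2) (by positivity) (by linarith) Z D hD
  have e1 := Real.tendsto_log_atTop.eventually (primes_ev ε₁ D hε₁0 (by linarith) hD)
  have e2 := Real.tendsto_log_atTop.eventually (QQ_ev2 D hD ε₁ hε₁0)
  have e3 : ∀ᶠ X : ℝ in atTop, 6 / (Real.log (Real.log X)) ^ 2 ≤ ε₁ := by
    have a1 : Tendsto (fun L : ℝ => 6 / (Real.log L) ^ 2) atTop (𝓝 0) := by
      have : Tendsto (fun L : ℝ => (Real.log L) ^ 2) atTop atTop :=
        (tendsto_pow_atTop (by norm_num)).comp Real.tendsto_log_atTop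
      exact this.const_div_atTop 6
    filter_upwards [Real.tendsto_log_atTop.eventually (a1.eventually_lt_const hε₁0)] with X hX
    exact hX.le
  have e4 := freq_arith η hη (ε₁ / 800) (by positivity) D hD2
  have e5 : ∀ᶠ X : ℝ in atTop, 1 ≤ Real.log (Real.log X) ∧ 8 / ε ≤ Real.log X :=
    (Real.tendsto_log_atTop.eventually (Real.tendsto_log_atTop.eventually_ge_atTop 1)).and
      (Real.tendsto_log_atTop.eventually_ge_atTop _)
  have e6 : ∀ᶠ X : ℝ in atTop, (Real.log X) ^ 3 ≤ X := by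
    have h1 := (Real.isLittleO_pow_log_id_atTop (n := 3)).bound (show (0 : ℝ) < 1 by norm_num)
    filter_upwards [h1, eventually_ge_atTop (1 : ℝ)] with X h2 h3
    rw [Real.norm_of_nonneg (pow_nonneg (Real.log_nonneg h3) 3), id, Real.norm_of_nonneg (by linarith)] at h2
    linarith
  have key : ∀ᶠ X : ℝ in atTop, ∀ h : ℕ, 1 / ε₁ * Real.log X ≤ h → (h : ℝ) ≤ (Real.log X) ^ (1 + ε₁) →
    (3 * X) ^ (1 - η) ≤ ((rowset X (fun n => (E - ε) * (h / Real.log X) ≤ cnt n h)).card : ℝ) := by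
    filter_upwards [eventually_ge_atTop X0, e1, e2, e3, e4, e5, e6, eventually_ge_atTop (40 : ℝ),
      Real.tendsto_log_atTop.eventually_ge_atTop (2 : ℝ)] with X g2 f1 f2 f3 g6 f5 g10 g4 g7
    intro Y hY1 hY2
    obtain ⟨ps, S, hps, hS, hr⟩ := hX0 X g2
    have hXpos : 0 < X := by linarith
    have hX1 : 1 ≤ X := by linarith
    have g3 : (Y : ℝ) ≤ (Real.log X) ^ 3 := by
      refine hY2.trans ?_
      rw [← Real.rpow_natCast]
      apply Real.rpow_le_rpow_of_exponent_le (by linarith)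
      push_cast; linarith
    obtain ⟨r2, -, r3, r4⟩ := hr 0 Y g3
    have hSs := hS.2.trans f3
    have hs1 : 0 < 1 - ε₁ - 1 / (Z : ℝ) := by linarith
    have hBE := BE_le D hD X hX1 S ps Z hps hZ0 ε₁ hSs hs1
    have hVV := VV_ge D hD X hX1 S ps Y
    have hprim := f1 Y hY1 hY2
    obtain ⟨f6, f7⟩ := f5
    set L := Real.log X with hL
    set W := WD X D S ps with hW
    set B := BE (PD X D S ps) with hB
    have hPp : ∀ p ∈ PD X D S ps, p.Prime := fun p hp => PD_prime hp
    have hB0 : 0 < B := BE_pos hPp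
    have hW0 : (0 : ℝ) < W := by exact_mod_cast WD_pos X D S ps
    have hφ : (W.totient : ℝ) = W * B := totient_prod _ hPp
    have hM1 := MPhi_ge X g4
    set M := MPhi X with hM
    have hM0 : 0 < M := by linarith
    set V : ℝ := (VV W 0 Y : ℝ) with hV
    set N1 := ∑ n ∈ Icc 1 ⌊3 * X⌋₊, nu X W 0 n with hN1
    set A := (V - 80) / B with hA
    have hY0 : (0 : ℝ) ≤ Y := Nat.cast_nonneg _
    have hl0 : 0 < Real.log L := by linarith
    have hL0 : 0 < L := by linarith
    have hYL : L ≤ Y := by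
      refine le_trans ?_ hY1
      have : 1 ≤ 1 / ε₁ := by rw [le_div_iff₀ hε₁0]; linarith
      nlinarith
    have g8 : (E - 13 * ε₁) * Y ≤ A := by
      have c1 : (1 - 4 * ε₁) * (Y / Real.log L) ≤ V - 80 := by
        have : ((PI ⌊L / D⌋₊ Y).card : ℝ) ≤ V := by rw [hV]; exact_mod_cast hVV
        linarith
      have hQ0 := QQ_pos ⌊L / D⌋₊
      have c2 : (1 - 2 * ε₁) * ((E - ε₁) * Real.log L) ≤ B⁻¹ := by
        have c3 : ((QQ ⌊L / D⌋₊) / (1 - ε₁ - 1 / Z))⁻¹ ≤ B⁻¹ := inv_anti₀ hB0 hBE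
        refine le_trans ?_ c3
        rw [inv_div, div_eq_mul_inv]
        apply mul_le_mul (by linarith) f2 _ (by linarith)
        apply mul_nonneg (by linarith) hl0.le
      have c4 : (1 - 4 * ε₁) * (Y / Real.log L) * ((1 - 2 * ε₁) * ((E - ε₁) * Real.log L)) ≤ A := by
        rw [hA, div_eq_mul_inv]
        apply mul_le_mul c1 c2
        · apply mul_nonneg (by linarith) (mul_nonneg (by linarith) hl0.le)
        · refine le_trans ?_ c1
          apply mul_nonneg (by linarith) (by positivity)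
      refine le_trans ?_ c4
      have c5 : (1 - 4 * ε₁) * (Y / Real.log L) * ((1 - 2 * ε₁) * ((E - ε₁) * Real.log L)) =
          ((1 - 4 * ε₁) * (1 - 2 * ε₁) * (E - ε₁)) * Y := by field_simp
      rw [c5]
      apply mul_le_mul_of_nonneg_right _ hY0
      have c6 : 1 - 6 * ε₁ ≤ (1 - 4 * ε₁) * (1 - 2 * ε₁) := by nlinarith
      calc E - 13 * ε₁ ≤ (1 - 6 * ε₁) * (E - ε₁) := by nlinarith
        _ ≤ _ := mul_le_mul_of_nonneg_right c6 (by linarith)
    have hA1 : 1 ≤ A := by
      refine le_trans ?_ g8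
      nlinarith
    have hMW : 0 < M / W := by positivity
    have hMφ : 0 < M / W.totient := by rw [hφ]; positivity
    have hT : (1 - ε₁ / 2) * A * N1 ≤ ∑ n ∈ Icc 1 ⌊3 * X⌋₊, nu X W 0 n * thw n Y := by
      refine le_trans ?_ r2
      calc (1 - ε₁ / 2) * A * N1 ≤ (1 - ε₁ / 2) * A * ((1 + ε₁ / 2 / 4) * (M / W)) := by
            apply mul_le_mul_of_nonneg_left r4
            apply mul_nonneg <;> linarith
        _ = ((1 - ε₁ / 2) * (1 + ε₁ / 2 / 4)) * (A * (M / W)) := by ring
        _ ≤ (1 - ε₁ / 2 / 4) * (A * (M / W)) := by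
            apply mul_le_mul_of_nonneg_right _ (by positivity)
            nlinarith
        _ = (1 - ε₁ / 2 / 4) * ((V - 80) * (M / W.totient)) := by
            rw [hA, hφ]; field_simp
        _ ≤ _ := by nlinarith
    have hYX : (Y : ℝ) ≤ X := g3.trans g10
    have hgK : ∀ n : ℕ, X < n → (n : ℝ) < 3 * X → thw n Y ≤ (L + 2) * cnt n Y := by
      intro n hn1 hn2
      have hn0 : 0 < n := by
        have : (0 : ℝ) < n := by linarith
        exact_mod_cast this
      have h7 := thw_le n Y (4 * X) (by linarith) hn0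
      refine h7.trans ?_
      have h8 : Real.log (4 * X) ≤ L + 2 := by
        rw [Real.log_mul (by norm_num) hXpos.ne']
        have a2 : Real.log 4 ≤ 2 := by
          rw [show (4 : ℝ) = 2 ^ 2 by norm_num, Real.log_pow]
          have := Real.log_two_lt_d9
          push_cast; linarith
        linarith
      gcongr
    have hgK2 : ∀ n : ℕ, X < n → (n : ℝ) < 3 * X → thw n Y ≤ 2 * L ^ 4 := by
      intro n hn1 hn2
      refine (hgK n hn1 hn2).trans ?_
      have h7 : (cnt n Y : ℝ) ≤ L ^ 3 := by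
        have : (cnt n Y : ℝ) ≤ Y := by exact_mod_cast cnt_le n Y
        exact this.trans g3
      calc (L + 2) * (cnt n Y : ℝ) ≤ (2 * L) * L ^ 3 := by
            apply mul_le_mul (by linarith) h7 (Nat.cast_nonneg _) (by linarith)
        _ = 2 * L ^ 4 := by ring
    have hcnt := count_many X hXpos W 0 (fun n => thw n Y) A ε₁ N1 (2 * L ^ 4) hA1 hε₁0 (by linarith)
      hgK2 rfl hT
    have hsub : rowset X (fun n => (1 - ε₁) * A ≤ thw n Y) ⊆
        rowset X (fun n => (E - ε) * (Y / L) ≤ cnt n Y) := by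
      intro n hn
      obtain ⟨m1, m2, m3, m4⟩ := mem_rowset.1 hn
      refine mem_rowset.2 ⟨m1, m2, m3, ?_⟩
      have s2 := m4.trans (hgK n m2 m3)
      have s3 : (1 - ε₁) * ((E - 13 * ε₁) * Y) ≤ (L + 2) * cnt n Y := by
        refine le_trans ?_ s2
        apply mul_le_mul_of_nonneg_left g8 (by linarith)
      have s4 : (E - 15 * ε₁) * Y ≤ (L + 2) * cnt n Y := by
        refine le_trans ?_ s3
        rw [← mul_assoc]
        apply mul_le_mul_of_nonneg_right _ hY0
        nlinarith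
      have s5 : (E - ε) * (L + 2) ≤ (E - 15 * ε₁) * L := by
        have : 8 ≤ L * ε := by rw [div_le_iff₀ hε] at f7; exact f7
        rw [hε₁]
        nlinarith
      have s6 : (L + 2) * ((E - ε) * (Y / L)) ≤ (L + 2) * cnt n Y := by
        refine le_trans ?_ s4
        have : (L + 2) * ((E - ε) * (Y / L)) = ((E - ε) * (L + 2)) * (Y / L) := by ring
        rw [this]
        calc ((E - ε) * (L + 2)) * (Y / L) ≤ ((E - 15 * ε₁) * L) * (Y / L) :=
              mul_le_mul_of_nonneg_right s5 (by positivity)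
          _ = (E - 15 * ε₁) * Y := by field_simp
      exact le_of_mul_le_mul_left s6 (by linarith)
    have hcard : ((rowset X (fun n => (1 - ε₁) * A ≤ thw n Y)).card : ℝ) ≤
        ((rowset X (fun n => (E - ε) * (Y / L) ≤ cnt n Y)).card : ℝ) := by
      exact_mod_cast Finset.card_le_card hsub
    refine le_trans ?_ hcard
    refine g6.trans ?_
    have hWle := WD_le X D hD0 (by linarith) S ps
    rw [← hW, ← hL] at hWle
    have q1 : X / 40 / W ≤ N1 := by
      refine le_trans ?_ r3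
      calc X / 40 / W = 1 / 2 * (X / 20 / W) := by ring
        _ ≤ (1 - ε₁ / 2 / 4) * (M / W) := by
            apply mul_le_mul (by linarith) _ (by positivity) (by linarith)
            exact div_le_div_of_nonneg_right hM1 hW0.le
    have hL4 : 0 < L ^ 4 := by positivity
    have q2 : ε₁ / 2 * (X / 40 / W) ≤ 2 * L ^ 4 * ((rowset X (fun n => (1 - ε₁) * A ≤ thw n Y)).card : ℝ) := by
      refine le_trans ?_ hcnt
      gcongr
    have q3 : ε₁ / 160 * (X / (W * L ^ 4)) ≤ ((rowset X (fun n => (1 - ε₁) * A ≤ thw n Y)).card : ℝ) := by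
      have q4 : ε₁ / 160 * (X / (W * L ^ 4)) * (2 * L ^ 4) = ε₁ / 2 * (X / 40 / W) := by
        field_simp
        norm_num
      have q5 : 0 < 2 * L ^ 4 := by positivity
      have q6 : ε₁ / 160 * (X / (W * L ^ 4)) * (2 * L ^ 4) ≤
          ((rowset X (fun n => (1 - ε₁) * A ≤ thw n Y)).card : ℝ) * (2 * L ^ 4) := by
        rw [q4]
        linarith
      exact le_of_mul_le_mul_right q6 q5
    refine le_trans ?_ q3
    have q7 : X / (Real.exp (3 / 2 * (L / D)) * L ^ 4) ≤ X / (W * L ^ 4) := by gcongr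
    have q8 : 0 ≤ X / (W * L ^ 4) := by positivity
    calc ε₁ / 800 * (X / (Real.exp (3 / 2 * (L / D)) * L ^ 4)) ≤ ε₁ / 800 * (X / (W * L ^ 4)) := by gcongr
      _ ≤ _ := by
        apply mul_le_mul_of_nonneg_right _ q8
        linarith
  obtain ⟨X₀, hX₀⟩ := eventually_atTop.1 key
  exact ⟨1 / ε₁, ε₁, X₀, by positivity, hε₁0, hX₀⟩

end Pool.Agent.K4H15
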