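import Pool.Agent.K4H15.RowsC
import Pool.Agent.K4H15.ManyD
import Pool.Agent.Y831.RC3.Abund

set_option autoImplicit false
set_option linter.unusedVariables false

/-! # Exact prime counts in windows -/

namespace Pool.Agent.K4H15

open Finset Filter Pool.Agent.H256R2.SC

/-- comparison of the record functions at `X^η` and `X` -/
theorem ff_pow (η : ℝ) (hη : 0 < η) (hη1 : η ≤ 1) : ∃ X₀ : ℝ, ∀ X : ℝ, X₀ ≤ X →
    0 ≤ ff X ∧ η / 8 * ff X ≤ ff (X ^ η) ∧ ff X ≤ (Real.log X) ^ (17 / 16 : ℝ) := by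
  obtain ⟨X₁, h₁⟩ := Pool.Agent.Y831.RC.ev4 64
  have e1 : ∀ᶠ X : ℝ in atTop, 2 * |Real.log η| ≤ Real.log (Real.log X) :=
    (Real.tendsto_log_atTop.comp Real.tendsto_log_atTop).eventually_ge_atTop _
  obtain ⟨X₂, h₂⟩ := eventually_atTop.1 e1
  refine ⟨max X₁ (max X₂ 1), fun X hX => ?_⟩
  obtain ⟨g1, m4, m5, m3, m2, m1⟩ := h₁ X ((le_max_left _ _).trans hX)
  have g2 := h₂ X ((le_max_left _ _).trans ((le_max_right _ _).trans hX))
  have hX0 : 0 < X := by linarith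
  unfold ff
  rw [Real.log_rpow hX0]
  obtain ⟨L, hL⟩ : ∃ L, L = Real.log X := ⟨_, rfl⟩
  rw [← hL] at m4 m5 m3 m2 m1 g2 ⊢
  obtain ⟨l, hl⟩ : ∃ l, l = Real.log L := ⟨_, rfl⟩
  rw [← hl] at m4 m5 m3 m2 m1 g2 ⊢
  obtain ⟨l3, hl3⟩ : ∃ l3, l3 = Real.log l := ⟨_, rfl⟩
  rw [← hl3] at m4 m5 m3 m2 ⊢
  obtain ⟨l4, hl4⟩ : ∃ l4, l4 = Real.log l3 := ⟨_, rfl⟩
  rw [← hl4] at m4 m5 m3 ⊢
  have p4 : 64 ≤ l4 := m4
  have p3 : 64 ≤ l3 := by nlinarith
  have p2 : 64 ≤ l := by nlinarith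
  have p1 : 64 ≤ L := by nlinarith
  have hlogη : Real.log (η * L) = l + Real.log η := by
    rw [Real.log_mul hη.ne' (by linarith), ← hl]; ring
  have hη0 : Real.log η ≤ 0 := Real.log_nonpos hη.le hη1
  have habs : |Real.log η| = -Real.log η := abs_of_nonpos hη0
  rw [habs] at g2
  obtain ⟨l', hl'⟩ : ∃ l', l' = l + Real.log η := ⟨_, rfl⟩
  have a1 : l / 2 ≤ l' := by rw [hl']; linarith
  have a2 : l' ≤ l := by rw [hl']; linarith
  rw [hlogη, ← hl']
  have hln2 := Real.log_two_lt_d9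
  have hln2' := Real.log_two_gt_d9
  obtain ⟨l3', hl3'⟩ : ∃ l3', l3' = Real.log l' := ⟨_, rfl⟩
  rw [← hl3']
  have b1 : l3 - 1 ≤ l3' := by
    have : Real.log (l / 2) ≤ l3' := by
      rw [hl3']; exact Real.log_le_log (by linarith) a1
    rw [Real.log_div (by linarith) (by norm_num), ← hl3] at this
    linarith
  have b2 : l3' ≤ l3 := by rw [hl3', hl3]; exact Real.log_le_log (by linarith) a2
  obtain ⟨l4', hl4'⟩ : ∃ l4', l4' = Real.log l3' := ⟨_, rfl⟩
  rw [← hl4']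
  have c1 : l4 - 1 ≤ l4' := by
    have : Real.log (l3 / 2) ≤ l4' := by
      rw [hl4']; exact Real.log_le_log (by linarith) (by linarith)
    rw [Real.log_div (by linarith) (by norm_num), ← hl4] at this
    linarith
  have d1 : l4 / 2 ≤ l4' := by linarith
  refine ⟨by positivity, ?_, ?_⟩
  · have e1 : η / 8 * (L * l ^ 2 * l4 / l3 ^ 2) = (η * L * (l / 2) ^ 2 * (l4 / 2)) / l3 ^ 2 := by
      field_simp
      ring
    rw [e1]
    have hl4'0 : 0 ≤ l4' := by linarith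
    apply div_le_div₀
    · positivity
    · gcongr
    · apply pow_pos; linarith
    · apply pow_le_pow_left₀ (by linarith) b2
  · -- l² ≤ L^(1/16)
    have e1 : L * l ^ 2 * l4 / l3 ^ 2 ≤ L * l ^ 2 := by
      rw [div_le_iff₀ (by positivity)]
      apply mul_le_mul_of_nonneg_left _ (by positivity)
      nlinarith
    refine e1.trans ?_
    have e2 : l ^ 2 ≤ L ^ (1 / 16 : ℝ) := by
      have e3 : L ^ (1 / 16 : ℝ) = Real.exp (l * (1 / 16)) := by
        rw [Real.rpow_def_of_pos (by linarith), ← hl]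
      have e4 : l ^ 2 = Real.exp (2 * l3) := by
        rw [hl3, mul_comm, Real.exp_mul, Real.exp_log (by linarith)]
        norm_num
      rw [e3, e4]
      apply Real.exp_le_exp.2
      linarith
    calc L * l ^ 2 ≤ L * L ^ (1 / 16 : ℝ) := mul_le_mul_of_nonneg_left e2 (by linarith)
      _ = L ^ (17 / 16 : ℝ) := by
          nth_rewrite 1 [← Real.rpow_one L]
          rw [← Real.rpow_add (by linarith)]
          norm_num

/-- empty windows of record length in every interval of length `X^η` -/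
theorem record (η : ℝ) (hη : 0 < η) (hη1 : η ≤ 1) : ∃ c X₀ : ℝ, 0 < c ∧ c ≤ 1 ∧ ∀ X : ℝ, X₀ ≤ X →
    ∀ h : ℕ, (h : ℝ) ≤ c * ff X → ∀ M : ℕ, X ^ (1 / 2 : ℝ) ≤ M →
    ∃ n : ℕ, M < n ∧ (n : ℝ) + h ≤ M + X ^ η ∧ cn n h = 0 := by
  obtain ⟨X₁, h₁⟩ := ff_pow η hη hη1
  obtain ⟨X₂, h₂⟩ := Pool.Agent.Y831.RC.abund 0 (1 / 8) (1 / 2) le_rfl (by norm_num) (by norm_num) (by norm_num)
  have e1 : ∀ᶠ X : ℝ in atTop, X₂ ≤ X ^ η / 2 := by
    filter_upwards [(tendsto_rpow_atTop hη).eventually_ge_atTop (2 * X₂)] with X hX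
    linarith
  have e2 : ∀ᶠ X : ℝ in atTop, 2 ≤ X ^ η / 2 := by
    filter_upwards [(tendsto_rpow_atTop hη).eventually_ge_atTop 4] with X hX
    linarith
  obtain ⟨X₃, h₃⟩ := ff_pow (η / 2) (by positivity) (by linarith)
  have e4 : ∀ᶠ X : ℝ in atTop, X ^ (η / 2) ≤ X ^ η / 2 := by
    filter_upwards [(tendsto_rpow_atTop (show 0 < η / 2 by positivity)).eventually_ge_atTop 2,
      eventually_gt_atTop (0:ℝ)] with X hX hX0
    have : X ^ η = X ^ (η / 2) * X ^ (η / 2) := by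
      rw [← Real.rpow_add hX0]; ring_nf
    rw [this]
    nlinarith
  have e5 : ∀ᶠ X : ℝ in atTop, X₂ ≤ X ^ (η / 2) ∧ 1 ≤ X ^ (η / 2) :=
    ((tendsto_rpow_atTop (show 0 < η / 2 by positivity)).eventually_ge_atTop _).and
      ((tendsto_rpow_atTop (show 0 < η / 2 by positivity)).eventually_ge_atTop _)
  obtain ⟨X₄, h₄⟩ := eventually_atTop.1 (e4.and (e5.and (eventually_ge_atTop (1:ℝ))))
  refine ⟨η / 128, max X₃ X₄, by positivity, by linarith, fun X hX h hh M hM => ?_⟩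
  obtain ⟨g1, g2, g3⟩ := h₃ X ((le_max_left _ _).trans hX)
  obtain ⟨g4, ⟨g5, g5'⟩, g6⟩ := h₄ X ((le_max_right _ _).trans hX)
  have hX0 : 0 < X := by linarith
  set Y := X ^ (η / 2) with hY
  have hab := h₂ Y g5 (M + 1)
  rw [Real.rpow_zero, div_one, Real.exp_neg, Real.exp_log (by linarith),
    mul_inv_cancel₀ (by linarith : Y ≠ 0)] at hab
  have hne : (Pool.Agent.Y831.RC.RunSet ((M:ℝ) + 1) Y (1 / 8 * ff Y) (Y ^ (1 / 2 : ℝ))).Nonempty := by
    by_contra hc
    rw [Set.not_nonempty_iff_eq_empty] at hc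
    rw [hc, Set.ncard_empty] at hab
    norm_num at hab
  obtain ⟨n, hn1, hn2, hn3⟩ := hne
  have hn0 : 0 ≤ n := by
    have : (0:ℝ) ≤ n := by
      have : (0:ℝ) ≤ M := Nat.cast_nonneg _
      linarith
    exact_mod_cast this
  obtain ⟨n', rfl⟩ := Int.eq_ofNat_of_zero_le hn0
  have hhY : (h : ℝ) ≤ 1 / 8 * ff Y := by
    refine hh.trans ?_
    have : η / 2 / 8 * ff X ≤ ff Y := g2
    linarith
  push_cast at hn1 hn2
  refine ⟨n', ?_, ?_, ?_⟩
  · have : (M : ℝ) < n' := by linarith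
    exact_mod_cast this
  · have h5 : (1:ℝ) ≤ X ^ η / 2 := g5'.trans g4
    linarith
  · unfold cn
    rw [card_eq_zero, filter_eq_empty_iff]
    intro k hk hp
    rw [mem_Icc] at hk
    have hkh : (k : ℝ) ≤ 1 / 8 * ff Y := by
      have : (k : ℝ) ≤ h := by exact_mod_cast hk.2
      linarith
    obtain ⟨p, hpp, hp1, hp2⟩ := hn3 k hk.1 hkh
    have hp3 : p ∣ n' + k := by exact_mod_cast hp2
    have hp4 := (Nat.prime_dvd_prime_iff_eq hpp hp).1 hp3
    have hp5 : (p : ℝ) = n' + k := by rw [hp4]; push_cast; ring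
    have hp6 : Y ^ (1 / 2 : ℝ) ≤ X ^ (1 / 2 : ℝ) := by
      apply Real.rpow_le_rpow (by linarith) _ (by norm_num)
      rw [hY]
      calc X ^ (η / 2) ≤ X ^ (1:ℝ) := Real.rpow_le_rpow_of_exponent_le g6 (by linarith)
        _ = X := Real.rpow_one X
    have : (0:ℝ) ≤ k := Nat.cast_nonneg _
    linarith

/-- shifting the window by one changes the count by at most one -/
theorem cn_succ (n h : ℕ) : cn n h ≤ cn (n + 1) h + 1 ∧ cn (n + 1) h ≤ cn n h + 1 := by
  have key : ∀ n : ℕ, cn n h = ((Ioc n (n + h)).filter Nat.Prime).card := by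
    intro n
    unfold cn
    apply card_bij (fun k _ => n + k)
    · intro k hk
      rw [mem_filter, mem_Icc] at hk
      rw [mem_filter, mem_Ioc]
      exact ⟨⟨by omega, by omega⟩, hk.2⟩
    · intro a _ b _ hab
      exact Nat.add_left_cancel hab
    · intro b hb
      rw [mem_filter, mem_Ioc] at hb
      refine ⟨b - n, ?_, by omega⟩
      rw [mem_filter, mem_Icc, Nat.add_sub_cancel' hb.1.1.le]
      exact ⟨⟨by omega, by omega⟩, hb.2⟩
  rw [key, key]
  constructor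
  · have : (Ioc n (n + h)).filter Nat.Prime ⊆ insert (n + 1) ((Ioc (n + 1) (n + 1 + h)).filter Nat.Prime) := by
      intro p hp
      rw [mem_filter, mem_Ioc] at hp
      rw [mem_insert, mem_filter, mem_Ioc]
      by_cases h1 : p = n + 1
      · exact Or.inl h1
      · exact Or.inr ⟨⟨by omega, by omega⟩, hp.2⟩
    exact (card_le_card this).trans (card_insert_le _ _)
  · have : (Ioc (n + 1) (n + 1 + h)).filter Nat.Prime ⊆ insert (n + 1 + h) ((Ioc n (n + h)).filter Nat.Prime) := by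
      intro p hp
      rw [mem_filter, mem_Ioc] at hp
      rw [mem_insert, mem_filter, mem_Ioc]
      by_cases h1 : p = n + 1 + h
      · exact Or.inl h1
      · exact Or.inr ⟨⟨by omega, by omega⟩, hp.2⟩
    exact (card_le_card this).trans (card_insert_le _ _)

/-- discrete intermediate values -/
theorem cn_ivt (h m n n' : ℕ) (hnn : n ≤ n') (h1 : m ≤ cn n h) (h2 : cn n' h ≤ m) :
    ∃ a : ℕ, n ≤ a ∧ a ≤ n' ∧ cn a h = m := by
  induction n', hnn using Nat.le_induction with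
  | base => exact ⟨n, le_rfl, le_rfl, le_antisymm h2 h1⟩
  | succ k hk ih =>
    rcases Nat.lt_or_ge m (cn k h) with h3 | h3
    · have h4 := (cn_succ k h).1
      exact ⟨k + 1, by omega, le_rfl, by omega⟩
    · obtain ⟨a, ha1, ha2, ha3⟩ := ih h3
      exact ⟨a, ha1, by omega, ha3⟩

end Pool.Agent.K4H15
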