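import Pool.Agent.K4H15.ExactE

set_option autoImplicit false
set_option linter.unusedVariables false

/-! # Exact prime counts in windows, sums of consecutive gaps -/

namespace Pool.Agent.K4H15

open Finset Filter Pool.Agent.H256R2.SC Pool.Agent.H510R2.Maier Pool.Agent.H510R2.Maier.G

theorem cn_eq_cnt (n h : ℕ) : cn n h = cnt n h := rfl

/-- fibre counting -/
theorem fibre (G T : Finset ℕ) (K : ℕ) (F : ℕ → ℕ) (v : ℕ → ℕ)
    (hF : ∀ n ∈ G, F n ∈ T ∧ n ≤ v (F n) ∧ v (F n) ≤ n + K) : (G.card : ℝ) ≤ ((K : ℝ) + 1) * T.card := by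
  classical
  have h := card_le_mul_card_image_of_maps_to (s := G) (t := T) (f := F) (fun n hn => (hF n hn).1) (K + 1)
    (by
      intro b hb
      have h1 : {a ∈ G | F a = b} ⊆ Icc (v b - K) (v b) := by
        intro a ha
        rw [mem_filter] at ha
        obtain ⟨_, h2, h3⟩ := hF a ha.1
        rw [ha.2] at h2 h3
        rw [mem_Icc]
        exact ⟨by omega, h2⟩
      refine (card_le_card h1).trans ?_
      rw [Nat.card_Icc]
      omega)
  have : (G.card : ℝ) ≤ ((K + 1) * T.card : ℕ) := by exact_mod_cast h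
  push_cast at this
  exact this

theorem exact_counts (ε : ℝ) (hε : 0 < ε) (hε1 : ε < 1) : ∃ A c C δ X₀ : ℝ, 0 < A ∧ 0 < c ∧ 0 < C ∧ 0 < δ ∧
    ∀ X : ℝ, X₀ ≤ X → ∀ h : ℕ, A * Real.log X ≤ h → (h : ℝ) ≤ (Real.log X) ^ (1 + δ) → ∀ τ : ℝ,
    τ = Real.log (Real.log X) / Real.log (h / Real.log X) → ∀ m : ℕ,
    ((h : ℝ) ≤ c * ff X ∨ C * (h / Real.log X * (Real.log τ / (τ * Real.log (Real.log τ)))) ≤ m) →
    (m : ℝ) ≤ (Real.exp Real.eulerMascheroniConstant - ε) * (h / Real.log X) →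
    X ^ (1 - ε) ≤ (((Icc 1 ⌊X⌋₊).filter (fun n => cn n h = m)).card : ℝ) := by
  classical
  set E := Real.exp Real.eulerMascheroniConstant with hE
  have hE1 : 1 ≤ E := Real.one_le_exp (by
    have := Real.one_half_lt_eulerMascheroniConstant
    linarith)
  set η := ε / 4 with hη
  have hη0 : 0 < η := by positivity
  have hη1 : η ≤ 1 / 4 := by rw [hη]; linarith
  obtain ⟨A₁, δ₁, X₁, hA₁, hδ₁, hmany⟩ := many ε η hε hε1.le hη0
  obtain ⟨C₂, X₂, hC₂, hsp⟩ := sparse η hη0 (by linarith)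
  obtain ⟨c₃, X₃, hc₃, -, hrec⟩ := record η hη0 (by linarith)
  have e1 : ∀ᶠ L : ℝ in atTop, (2:ℝ) ^ (1 + δ₁) ≤ L ^ (δ₁ / 2) :=
    (tendsto_rpow_atTop (by positivity)).eventually_ge_atTop _
  have e2 : ∀ᶠ X : ℝ in atTop, X ^ (1 / 2 : ℝ) ≤ X / 4 ∧ X ^ η ≤ X / 4 := by
    have a1 : ∀ᶠ X : ℝ in atTop, 4 ≤ X ^ (1 / 2 : ℝ) :=
      (tendsto_rpow_atTop (by norm_num)).eventually_ge_atTop _
    filter_upwards [a1, eventually_ge_atTop (1:ℝ)] with X h1 h2
    have h3 : X = X ^ (1 / 2 : ℝ) * X ^ (1 / 2 : ℝ) := by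
      rw [← Real.rpow_add (by linarith)]; norm_num
    have h4 : X ^ (1 / 2 : ℝ) ≤ X / 4 := by
      nth_rewrite 2 [h3]
      nlinarith
    exact ⟨h4, (Real.rpow_le_rpow_of_exponent_le h2 (by linarith)).trans h4⟩
  have e3 : ∀ᶠ X : ℝ in atTop, 8 / 3 ≤ X ^ (ε / 2) :=
    (tendsto_rpow_atTop (by positivity)).eventually_ge_atTop _
  have e4 : ∀ᶠ X : ℝ in atTop, 4 * Real.log 2 + 2 ≤ Real.log X :=
    Real.tendsto_log_atTop.eventually_ge_atTop _
  obtain ⟨X₅, hX₅⟩ := eventually_atTop.1 ((Real.tendsto_log_atTop.eventually e1).and (e2.and (e3.and e4)))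
  refine ⟨max A₁ 3, c₃, C₂, min (δ₁ / 2) (1 / 16), max (max (4 * X₁) X₂) (max X₃ (max X₅ 4)),
    lt_max_of_lt_left hA₁, hc₃, hC₂, lt_min (by positivity) (by norm_num), ?_⟩
  intro X hX h hh1 hh2 τ hτ m hm1 hm2
  have hX1 : 4 * X₁ ≤ X := (le_max_left _ _).trans ((le_max_left _ _).trans hX)
  have hX2 : X₂ ≤ X := (le_max_right _ _).trans ((le_max_left _ _).trans hX)
  have hX3 : X₃ ≤ X := (le_max_left _ _).trans ((le_max_right _ _).trans hX)
  have hX5 : X₅ ≤ X := (le_max_left _ _).trans ((le_max_right _ _).trans ((le_max_right _ _).trans hX))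
  have hX4 : 4 ≤ X := (le_max_right _ _).trans ((le_max_right _ _).trans ((le_max_right _ _).trans hX))
  obtain ⟨g1, ⟨g2, g2'⟩, g3, g4⟩ := hX₅ X hX5
  have hX0 : 0 < X := by linarith
  have hln2 := Real.log_two_gt_d9
  have hL2 : 2 ≤ Real.log X := by linarith
  have hL0 : 0 < Real.log X := by linarith
  have hL' : Real.log (X / 4) = Real.log X - 2 * Real.log 2 := by
    rw [Real.log_div hX0.ne' (by norm_num), show (4 : ℝ) = 2 ^ 2 by norm_num, Real.log_pow]
    push_cast; ring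
  have hL'1 : Real.log X / 2 ≤ Real.log (X / 4) := by rw [hL']; linarith
  have hL'2 : Real.log (X / 4) ≤ Real.log X := by rw [hL']; linarith
  have hL'0 : 0 < Real.log (X / 4) := by linarith
  -- rich windows
  have hrich := hmany (X / 4) (by linarith) h (by
    refine le_trans ?_ hh1
    calc A₁ * Real.log (X / 4) ≤ A₁ * Real.log X := by gcongr
      _ ≤ max A₁ 3 * Real.log X := by
        apply mul_le_mul_of_nonneg_right (le_max_left _ _) hL0.le) (by
    refine hh2.trans ?_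
    calc (Real.log X) ^ (1 + min (δ₁ / 2) (1 / 16)) ≤ (Real.log X) ^ (1 + δ₁ / 2) := by
          apply Real.rpow_le_rpow_of_exponent_le (by linarith)
          have := min_le_left (δ₁ / 2) (1 / 16)
          linarith
      _ ≤ (Real.log X / 2) ^ (1 + δ₁) := by
          rw [Real.div_rpow hL0.le (by norm_num), le_div_iff₀ (by positivity)]
          calc (Real.log X) ^ (1 + δ₁ / 2) * 2 ^ (1 + δ₁) ≤
                (Real.log X) ^ (1 + δ₁ / 2) * (Real.log X) ^ (δ₁ / 2) := by gcongr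
            _ = (Real.log X) ^ (1 + δ₁) := by
                rw [← Real.rpow_add hL0]; ring_nf
      _ ≤ (Real.log (X / 4)) ^ (1 + δ₁) := by
          apply Real.rpow_le_rpow (by positivity) hL'1 (by positivity))
  set G := rowset (X / 4) (fun n => (E - ε) * (h / Real.log (X / 4)) ≤ cnt n h) with hG
  have h3X : 3 * (X / 4) = 3 / 4 * X := by ring
  rw [h3X] at hrich
  set T := (Icc 1 ⌊X⌋₊).filter (fun n => cn n h = m) with hT
  have key : ∀ n ∈ G, ∃ a : ℕ, a ∈ T ∧ n ≤ a ∧ a ≤ n + ⌊X ^ η⌋₊ := by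
    intro n hn
    obtain ⟨m1, m2, m3, m4⟩ := mem_rowset.1 hn
    have hmn : m ≤ cn n h := by
      have h1 : (m : ℝ) ≤ cn n h := by
        refine hm2.trans (le_trans ?_ m4)
        apply mul_le_mul_of_nonneg_left _ (by linarith)
        exact div_le_div_of_nonneg_left (Nat.cast_nonneg _) hL'0 hL'2
      exact_mod_cast h1
    have hlow : ∃ n' : ℕ, n < n' ∧ (n' : ℝ) + h ≤ n + X ^ η ∧ cn n' h ≤ m := by
      rcases hm1 with hm1 | hm1
      · obtain ⟨n', h1, h2, h3⟩ := hrec X hX3 h hm1 n (by linarith)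
        exact ⟨n', h1, h2, by omega⟩
      · obtain ⟨n', h1, h2, h3⟩ := hsp X hX2 h (by
            refine le_trans ?_ hh1
            apply mul_le_mul_of_nonneg_right _ hL0.le
            have := Real.exp_one_lt_d9
            have := le_max_right A₁ 3
            linarith) (by
            refine hh2.trans ?_
            apply Real.rpow_le_rpow_of_exponent_le (by linarith)
            have := min_le_right (δ₁ / 2) (1 / 16)
            linarith) τ hτ n
        refine ⟨n', h1, h2, ?_⟩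
        have : (cn n' h : ℝ) ≤ m := h3.trans hm1
        exact_mod_cast this
    obtain ⟨n', h1, h2, h3⟩ := hlow
    obtain ⟨a, ha1, ha2, ha3⟩ := cn_ivt h m n n' h1.le hmn h3
    have hn' : n' ≤ n + ⌊X ^ η⌋₊ := by
      have h4 : ((n' - n : ℕ) : ℝ) ≤ X ^ η := by
        rw [Nat.cast_sub h1.le]
        have : (0:ℝ) ≤ h := Nat.cast_nonneg _
        linarith
      have := Nat.le_floor h4
      omega
    refine ⟨a, ?_, ha1, by omega⟩
    rw [hT, mem_filter, mem_Icc]
    refine ⟨⟨by omega, ?_⟩, ha3⟩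
    apply Nat.le_floor
    have h5 : (a : ℝ) ≤ n' := by exact_mod_cast ha2
    have h6 : (0:ℝ) ≤ h := Nat.cast_nonneg _
    linarith
  choose! F hF1 hF2 hF3 using key
  have hfib := fibre G T ⌊X ^ η⌋₊ F id (fun n hn => ⟨hF1 n hn, hF2 n hn, hF3 n hn⟩)
  have hXη1 : 1 ≤ X ^ η := Real.one_le_rpow (by linarith) hη0.le
  have hfl : (⌊X ^ η⌋₊ : ℝ) ≤ X ^ η := Nat.floor_le (by linarith)
  have hT0 : (0:ℝ) ≤ T.card := Nat.cast_nonneg _
  have h1 : (3 / 4 * X) ^ (1 - η) ≤ 2 * X ^ η * T.card := by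
    refine hrich.trans (hfib.trans ?_)
    apply mul_le_mul_of_nonneg_right _ hT0
    linarith
  have h2 : 3 / 4 * X ^ (1 - η) ≤ (3 / 4 * X) ^ (1 - η) := by
    rw [Real.mul_rpow (by norm_num) hX0.le]
    apply mul_le_mul_of_nonneg_right _ (by positivity)
    calc (3 / 4 : ℝ) = (3 / 4) ^ (1 : ℝ) := (Real.rpow_one _).symm
      _ ≤ (3 / 4) ^ (1 - η) := by
          apply Real.rpow_le_rpow_of_exponent_ge (by norm_num) (by norm_num) (by linarith)
  have h3 : X ^ (1 - η) = X ^ (1 - ε) * X ^ (ε / 2) * X ^ η := by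
    rw [← Real.rpow_add hX0, ← Real.rpow_add hX0]
    congr 1
    rw [hη]; ring
  have h4 : X ^ (1 - ε) * (2 * X ^ η) ≤ T.card * (2 * X ^ η) := by
    have h5 : 0 < X ^ (1 - ε) * X ^ η := by positivity
    calc X ^ (1 - ε) * (2 * X ^ η) = 3 / 4 * (8 / 3) * (X ^ (1 - ε) * X ^ η) := by ring
      _ ≤ 3 / 4 * X ^ (ε / 2) * (X ^ (1 - ε) * X ^ η) := by gcongr
      _ = 3 / 4 * X ^ (1 - η) := by rw [h3]; ring
      _ ≤ _ := by linarith
  exact le_of_mul_le_mul_right h4 (by positivity)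

/-- facts on `T ≥ 64` -/
theorem T_facts {T τ : ℝ} (hT : 64 ≤ T) (hτ : T / 2 ≤ τ) :
    4.158 ≤ Real.log T ∧ 1.4 ≤ Real.log (Real.log T) ∧ Real.log (Real.log T) ≤ Real.log T ∧
    Real.log T ≤ T ∧
    Real.log τ / (τ * Real.log (Real.log τ)) ≤ 4 * (Real.log T / (T * Real.log (Real.log T))) := by
  have h1 : 4.158 ≤ Real.log T := by
    have h2 : Real.log 64 ≤ Real.log T := Real.log_le_log (by norm_num) hT
    rw [show (64 : ℝ) = 2 ^ 6 by norm_num, Real.log_pow] at h2
    have := Real.log_two_gt_d9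
    push_cast at h2
    linarith
  have h2 : 1.4 ≤ Real.log (Real.log T) := by
    rw [Real.le_log_iff_exp_le (by linarith)]
    refine le_trans ?_ h1
    have h3 : Real.exp 1.4 = Real.exp 1 * Real.exp 0.4 := by rw [← Real.exp_add]; norm_num
    rw [h3]
    have h4 := Real.exp_one_lt_d9
    have h5 : Real.exp 0.4 ≤ 1.5 := by
      have h6 : Real.exp 0.4 ≤ 1 / (1 - 0.4 : ℝ) ^ (1:ℕ) := by
        have := Real.exp_bound_div_one_sub_of_interval (x := 0.4) (by norm_num) (by norm_num)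
        simpa using this
      rw [← Real.le_log_iff_exp_le (by norm_num)]
      have h7 : Real.log 1.5 = Real.log 3 - Real.log 2 := by
        rw [← Real.log_div (by norm_num) (by norm_num)]; norm_num
      have h8 : 1.0986 ≤ Real.log 3 := by
        have := Real.log_three_gt_d9
        linarith
      have h9 := Real.log_two_lt_d9
      rw [h7]; linarith
    have h10 := Real.exp_pos 1
    nlinarith [Real.exp_pos 0.4]
  have h3 : Real.log (Real.log T) ≤ Real.log T := by
    have := Real.log_le_sub_one_of_pos (show 0 < Real.log T by linarith)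
    linarith
  have h4 : Real.log T ≤ T := by
    have := Real.log_le_sub_one_of_pos (show 0 < T by linarith)
    linarith
  refine ⟨h1, h2, h3, h4, ?_⟩
  have hln2 := Real.log_two_lt_d9
  have hln2' := Real.log_two_gt_d9
  have hT2 : Real.log (T / 2) = Real.log T - Real.log 2 := Real.log_div (by linarith) (by norm_num)
  have hex : Real.exp 1 ≤ T / 2 := by
    have := Real.exp_one_lt_d9
    linarith
  have a1 : Real.log τ / τ ≤ 2 * (Real.log T / T) := by
    have b1 := Real.log_div_self_antitoneOn (a := T / 2) (b := τ) hex (hex.trans hτ) hτ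
    refine b1.trans ?_
    show Real.log (T / 2) / (T / 2) ≤ _
    rw [hT2]
    have b2 : 2 * (Real.log T / T) = Real.log T / (T / 2) := by field_simp
    rw [b2]
    apply div_le_div_of_nonneg_right _ (by linarith)
    linarith
  have a2 : Real.log (Real.log T) / 2 ≤ Real.log (Real.log τ) := by
    have b1 : Real.log (Real.log (T / 2)) ≤ Real.log (Real.log τ) := by
      apply Real.log_le_log (by rw [hT2]; linarith)
      exact Real.log_le_log (by linarith) hτ
    refine le_trans ?_ b1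
    rw [hT2, ← Real.log_sqrt (by linarith)]
    apply Real.log_le_log (Real.sqrt_pos.2 (by linarith))
    have b2 : Real.sqrt (Real.log T) ≤ Real.log T / 2 := by
      rw [Real.sqrt_le_left (by linarith)]
      nlinarith
    linarith
  have hτ0 : 0 < τ := by linarith
  have hlτ : 0 ≤ Real.log τ := Real.log_nonneg (by linarith)
  calc Real.log τ / (τ * Real.log (Real.log τ)) = (Real.log τ / τ) * (1 / Real.log (Real.log τ)) := by
        rw [div_mul_div_comm, mul_one]
    _ ≤ (2 * (Real.log T / T)) * (1 / (Real.log (Real.log T) / 2)) := by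
        apply mul_le_mul a1 _ (by apply one_div_nonneg.2; linarith) (by positivity)
        apply one_div_le_one_div_of_le (by linarith) a2
    _ = _ := by field_simp; ring

/-- windows with at most `k - 1` primes in every short interval -/
theorem sparse_k (η : ℝ) (hη : 0 < η) (hη1 : η ≤ 1) : ∃ c X₀ : ℝ, 0 < c ∧ ∀ X : ℝ, X₀ ≤ X →
    ∀ k : ℕ, Real.log (Real.log X) ≤ k → (k : ℝ) ≤ (Real.log X) ^ (1 / 64 : ℝ) → ∀ T : ℝ,
    T = Real.log (Real.log X) / Real.log k → ∃ h : ℕ,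
    c * k * Real.log X * (T * Real.log (Real.log T) / Real.log T) ≤ h + 1 ∧ ∀ M : ℕ,
    ∃ n : ℕ, M < n ∧ (n : ℝ) + h ≤ M + X ^ η ∧ cn n h < k := by
  obtain ⟨C₂, X₂, hC₂, hsp⟩ := sparse η hη hη1
  set C := max C₂ 1 with hC
  have hC1 : 1 ≤ C := le_max_right _ _
  have hC2 : C₂ ≤ C := le_max_left _ _
  set c := 1 / (8 * C) with hc
  have hc0 : 0 < c := by positivity
  have hc1 : c ≤ 1 := by
    rw [hc, div_le_one (by positivity)]; linarith
  have e1 : ∀ᶠ X : ℝ in atTop, max (4 / c) 3 ≤ Real.log (Real.log X) :=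
    (Real.tendsto_log_atTop.comp Real.tendsto_log_atTop).eventually_ge_atTop _
  obtain ⟨X₃, hX₃⟩ := eventually_atTop.1 (e1.and (Real.tendsto_log_atTop.eventually_ge_atTop 1))
  refine ⟨c, max X₂ X₃, hc0, fun X hX k hk1 hk2 T hT => ?_⟩
  obtain ⟨g1, g2⟩ := hX₃ X ((le_max_right _ _).trans hX)
  have hsp' := hsp X ((le_max_left _ _).trans hX)
  clear hsp hX₃
  obtain ⟨L, hL⟩ : ∃ L, L = Real.log X := ⟨_, rfl⟩
  rw [← hL] at hk1 hk2 hT g1 g2 hsp' ⊢
  obtain ⟨l, hl⟩ : ∃ l, l = Real.log L := ⟨_, rfl⟩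
  rw [← hl] at hk1 hT g1 hsp'
  have hl4 : 4 / c ≤ l := (le_max_left _ _).trans g1
  have hl3 : 3 ≤ l := (le_max_right _ _).trans g1
  rw [div_le_iff₀ hc0] at hl4
  have hL0 : 0 < L := by linarith
  have hk3 : (3:ℝ) ≤ k := hl3.trans hk1
  have hk0 : (0:ℝ) < k := by linarith
  obtain ⟨lk, hlk⟩ : ∃ lk, lk = Real.log k := ⟨_, rfl⟩
  rw [← hlk] at hT
  have hlk1 : 1 ≤ lk := by
    rw [hlk, Real.le_log_iff_exp_le hk0]
    have := Real.exp_one_lt_d9
    linarith
  have hlk2 : lk ≤ l / 64 := by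
    have h1 : Real.log k ≤ Real.log (L ^ (1 / 64 : ℝ)) := Real.log_le_log hk0 hk2
    rw [Real.log_rpow hL0, ← hl, ← hlk] at h1
    linarith
  have hT64 : 64 ≤ T := by
    rw [hT, le_div_iff₀ (by linarith)]
    linarith
  have hTl : T ≤ l := by
    rw [hT, div_le_iff₀ (by linarith)]
    nlinarith
  obtain ⟨t1, t2, t3, t4, -⟩ := T_facts hT64 (by linarith : T / 2 ≤ T)
  obtain ⟨G, hG⟩ : ∃ G, G = T * Real.log (Real.log T) / Real.log T := ⟨_, rfl⟩
  have hG1 : 1 ≤ G := by
    rw [hG, le_div_iff₀ (by linarith)]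
    nlinarith
  have hGT : G ≤ T := by
    rw [hG, div_le_iff₀ (by linarith)]
    nlinarith
  rw [← hG]
  set h := ⌊c * k * L * G⌋₊ with hh
  have hpos : 0 ≤ c * k * L * G := by positivity
  have hhle : (h : ℝ) ≤ c * k * L * G := Nat.floor_le hpos
  have hhlt : c * k * L * G < h + 1 := Nat.lt_floor_add_one _
  refine ⟨h, hhlt.le, fun M => ?_⟩
  have hckG : 4 ≤ c * k * G := by
    have h1 : 4 ≤ c * k := by nlinarith
    nlinarith
  have hhe : Real.exp 1 * L ≤ h := by
    have h1 : 4 * L ≤ c * k * L * G := by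
      calc 4 * L ≤ (c * k * G) * L := mul_le_mul_of_nonneg_right hckG hL0.le
        _ = _ := by ring
    have := Real.exp_one_lt_d9
    nlinarith
  have hh0 : (0:ℝ) < h := by
    have : 0 < Real.exp 1 * L := by positivity
    linarith
  have hhk : (h : ℝ) ≤ L * (k * k) := by
    refine hhle.trans ?_
    have h1 : G ≤ k := hGT.trans (hTl.trans hk1)
    calc c * k * L * G ≤ 1 * k * L * k := by gcongr
      _ = _ := by ring
  have hh17 : (h : ℝ) ≤ L ^ (17 / 16 : ℝ) := by
    refine hhk.trans ?_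
    calc L * (k * k) ≤ L * (L ^ (1 / 64 : ℝ) * L ^ (1 / 64 : ℝ)) := by gcongr
      _ = L ^ (1 + (1 / 64 + 1 / 64) : ℝ) := by
          rw [Real.rpow_add hL0, Real.rpow_one, ← Real.rpow_add hL0]
      _ ≤ L ^ (17 / 16 : ℝ) := Real.rpow_le_rpow_of_exponent_le g2 (by norm_num)
  obtain ⟨n, hn1, hn2, hn3⟩ := hsp' h hhe hh17 _ rfl M
  refine ⟨n, hn1, hn2, ?_⟩
  obtain ⟨τ, hτ⟩ : ∃ τ, τ = l / Real.log (h / L) := ⟨_, rfl⟩
  rw [← hτ] at hn3
  have hs1 : 1 ≤ Real.log (h / L) := by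
    rw [Real.le_log_iff_exp_le (by positivity), le_div_iff₀ hL0]
    exact hhe
  have hs2 : Real.log (h / L) ≤ 2 * lk := by
    have h1 : (h : ℝ) / L ≤ k * k := by
      rw [div_le_iff₀ hL0]
      linarith
    have h2 := Real.log_le_log (by positivity) h1
    rw [Real.log_mul hk0.ne' hk0.ne', ← hlk] at h2
    linarith
  have hτT : T / 2 ≤ τ := by
    rw [hτ, hT, div_div]
    apply div_le_div_of_nonneg_left (by linarith) (by linarith)
    linarith
  obtain ⟨-, -, -, -, t5⟩ := T_facts hT64 hτT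
  have hlT : 0 < Real.log T := by linarith
  have hllT : 0 < Real.log (Real.log T) := by linarith
  have hT0 : 0 < T := by linarith
  have hfin : (cn n h : ℝ) ≤ k / 2 := by
    refine hn3.trans ?_
    have h1 : (h : ℝ) / L ≤ c * k * G := by
      rw [div_le_iff₀ hL0]
      linarith
    have hB0 : 0 ≤ Real.log τ / (τ * Real.log (Real.log τ)) := by
      have a1 : 32 ≤ τ := by linarith
      have a2 := (tau_facts (show 16 ≤ τ by linarith))
      apply div_nonneg (by linarith [a2.1])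
      apply mul_nonneg (by linarith) (by linarith [a2.2.1])
    calc C₂ * (h / L * (Real.log τ / (τ * Real.log (Real.log τ))))
        ≤ C * (c * k * G * (4 * (Real.log T / (T * Real.log (Real.log T))))) := by
          gcongr
      _ = 4 * (C * c) * k := by
          rw [hG]
          field_simp
      _ = k / 2 := by
          rw [hc]
          field_simp
          norm_num
  have : (cn n h : ℝ) < k := by linarith
  exact_mod_cast this

theorem cn_pi (n h : ℕ) : Nat.primeCounting (n + h) = Nat.primeCounting n + cn n h := by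
  have := cnt_pi n h
  rw [← cn_eq_cnt] at this
  have h2 : (Nat.primeCounting (n + h) : ℝ) = ((Nat.primeCounting n + cn n h : ℕ) : ℝ) := by
    push_cast; linarith
  exact_mod_cast h2

theorem pi_gap : ∀ᶠ X : ℝ in atTop,
    (Nat.primeCounting ⌊3 / 4 * X⌋₊ : ℝ) + X / (8 * Real.log X) ≤ Nat.primeCounting ⌊X⌋₊ ∧
    X / (4 * Real.log X) ≤ Nat.primeCounting ⌊X / 2⌋₊ := by
  have h1 := Pool.Agent.Helper601.PNT.pi_tendsto
  have a1 := h1.eventually_const_lt (show (15/16:ℝ) < 1 by norm_num)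
  have a2 := h1.eventually_lt_const (show (1:ℝ) < 17/16 by norm_num)
  have t34 : Tendsto (fun X : ℝ => 3 / 4 * X) atTop atTop := tendsto_id.const_mul_atTop (by norm_num)
  have t12 : Tendsto (fun X : ℝ => X / 2) atTop atTop := tendsto_id.atTop_div_const (by norm_num)
  filter_upwards [a1, t34.eventually a2, t12.eventually a1, Real.tendsto_log_atTop.eventually_ge_atTop (100:ℝ),
    eventually_ge_atTop (4:ℝ)] with X b1 b2 b3 b4 b5
  have hX0 : 0 < X := by linarith
  have hl : 0 < Real.log X := by linarith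
  have l2 := Real.log_two_lt_d9
  have l2' := Real.log_two_gt_d9
  have hl34 : Real.log X - 1 ≤ Real.log (3 / 4 * X) := by
    have : Real.log (X / 2) ≤ Real.log (3 / 4 * X) := Real.log_le_log (by positivity) (by linarith)
    rw [Real.log_div hX0.ne' (by norm_num)] at this
    linarith
  have hl12 : Real.log (X / 2) ≤ Real.log X := Real.log_le_log (by positivity) (by linarith)
  have hl12' : 0 < Real.log (X / 2) := by
    rw [Real.log_div hX0.ne' (by norm_num)]; linarith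
  rw [lt_div_iff₀ hX0] at b1
  rw [div_lt_iff₀ (by positivity)] at b2
  rw [lt_div_iff₀ (by positivity)] at b3
  constructor
  · have c1 : (15/16) * X / Real.log X ≤ Nat.primeCounting ⌊X⌋₊ := by
      rw [div_le_iff₀ hl]; linarith
    have c2 : (Nat.primeCounting ⌊3 / 4 * X⌋₊ : ℝ) ≤ (13/16) * X / Real.log X := by
      rw [le_div_iff₀ hl]
      have hp : (0:ℝ) ≤ Nat.primeCounting ⌊3 / 4 * X⌋₊ := Nat.cast_nonneg _
      have c3 : (Nat.primeCounting ⌊3 / 4 * X⌋₊ : ℝ) * (Real.log X - 1) ≤ 17/16 * (3 / 4 * X) := by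
        refine le_trans ?_ b2.le
        exact mul_le_mul_of_nonneg_left hl34 hp
      have c4 : (Nat.primeCounting ⌊3 / 4 * X⌋₊ : ℝ) * (99/100 * Real.log X) ≤
          (Nat.primeCounting ⌊3 / 4 * X⌋₊ : ℝ) * (Real.log X - 1) := by
        apply mul_le_mul_of_nonneg_left _ hp
        linarith
      nlinarith
    have c5 : X / (8 * Real.log X) = (1/8) * X / Real.log X := by field_simp
    rw [c5]
    have c6 : (13/16) * X / Real.log X + (1/8) * X / Real.log X = (15/16) * X / Real.log X := by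
      field_simp; norm_num
    linarith
  · rw [div_le_iff₀ (by positivity)]
    have hp : (0:ℝ) ≤ Nat.primeCounting ⌊X / 2⌋₊ := Nat.cast_nonneg _
    have c3 : (Nat.primeCounting ⌊X / 2⌋₊ : ℝ) * Real.log (X / 2) ≤
        (Nat.primeCounting ⌊X / 2⌋₊ : ℝ) * Real.log X := mul_le_mul_of_nonneg_left hl12 hp
    linarith

/-- sums of `k` consecutive gaps -/
theorem kgaps (ε : ℝ) (hε : 0 < ε) (hε1 : ε < 1) : ∃ c X₀ : ℝ, 0 < c ∧ ∀ X : ℝ, X₀ ≤ X →
    ∀ k : ℕ, Real.log (Real.log X) ≤ k → (k : ℝ) ≤ (Real.log X) ^ (1 / 64 : ℝ) → ∀ T : ℝ,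
    T = Real.log (Real.log X) / Real.log k →
    X ^ (1 - ε) ≤ (({j ∈ range ⌊X⌋₊ | (Nat.nth Nat.Prime (j + k) : ℝ) ≤ X ∧
      c * k * Real.log X * (T * Real.log (Real.log T) / Real.log T) ≤
        (Nat.nth Nat.Prime (j + k) : ℝ) - Nat.nth Nat.Prime j} : Finset ℕ).card : ℝ) := by
  classical
  set η := ε / 4 with hη
  have hη0 : 0 < η := by positivity
  have hη1 : η ≤ 1 / 4 := by rw [hη]; linarith
  obtain ⟨c, X₁, hc, hsp⟩ := sparse_k η hη0 (by linarith)
  have e2 : ∀ᶠ X : ℝ in atTop, X ^ η ≤ X / 4 := by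
    have a1 : ∀ᶠ X : ℝ in atTop, 4 ≤ X ^ (1 / 2 : ℝ) :=
      (tendsto_rpow_atTop (by norm_num)).eventually_ge_atTop _
    filter_upwards [a1, eventually_ge_atTop (1:ℝ)] with X h1 h2
    have h3 : X = X ^ (1 / 2 : ℝ) * X ^ (1 / 2 : ℝ) := by
      rw [← Real.rpow_add (by linarith)]; norm_num
    have h4 : X ^ (1 / 2 : ℝ) ≤ X / 4 := by
      nth_rewrite 2 [h3]
      nlinarith
    exact (Real.rpow_le_rpow_of_exponent_le h2 (by linarith)).trans h4
  have e3 : ∀ᶠ X : ℝ in atTop, 8 * Real.log X ≤ X ^ (ε / 2) := by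
    have e := (isLittleO_log_rpow_atTop (show 0 < ε / 2 by positivity)).def (show (0:ℝ) < 1 / 8 by norm_num)
    filter_upwards [e, eventually_ge_atTop (1:ℝ)] with X hx hx1
    rw [Real.norm_eq_abs, Real.norm_eq_abs, abs_of_nonneg (Real.log_nonneg hx1),
      abs_of_nonneg (by positivity)] at hx
    linarith
  have e4 : ∀ᶠ X : ℝ in atTop, (Real.log X) ^ (1 / 64 : ℝ) < X / (8 * Real.log X) := by
    have e := (Real.isLittleO_pow_log_id_atTop (n := 2)).def (show (0:ℝ) < 1 / 16 by norm_num)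
    filter_upwards [e, eventually_ge_atTop (1:ℝ), Real.tendsto_log_atTop.eventually_ge_atTop (1:ℝ)] with X hx hx1 hx2
    rw [Real.norm_eq_abs, Real.norm_eq_abs, abs_of_nonneg (by positivity), id,
      abs_of_nonneg (by linarith)] at hx
    rw [lt_div_iff₀ (by positivity)]
    have h1 : (Real.log X) ^ (1 / 64 : ℝ) ≤ Real.log X := by
      calc (Real.log X) ^ (1 / 64 : ℝ) ≤ (Real.log X) ^ (1 : ℝ) :=
            Real.rpow_le_rpow_of_exponent_le hx2 (by norm_num)
        _ = Real.log X := Real.rpow_one _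
    calc (Real.log X) ^ (1 / 64 : ℝ) * (8 * Real.log X) ≤ Real.log X * (8 * Real.log X) := by gcongr
      _ = 8 * (Real.log X) ^ 2 := by ring
      _ < X := by linarith
  obtain ⟨X₂, hX₂⟩ := eventually_atTop.1 (e2.and (e3.and (e4.and (pi_gap.and
    ((eventually_ge_atTop (4:ℝ)).and (Real.tendsto_log_atTop.eventually_ge_atTop 1))))))
  refine ⟨c, max X₁ X₂, hc, fun X hX k hk1 hk2 T hT => ?_⟩
  obtain ⟨g2, g3, g4, ⟨g5, g6⟩, g7, g8⟩ := hX₂ X ((le_max_right _ _).trans hX)
  obtain ⟨h, hh, hwin⟩ := hsp X ((le_max_left _ _).trans hX) k hk1 hk2 T hT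
  have hX0 : 0 < X := by linarith
  set S : Finset ℕ := {j ∈ range ⌊X⌋₊ | (Nat.nth Nat.Prime (j + k) : ℝ) ≤ X ∧
      c * k * Real.log X * (T * Real.log (Real.log T) / Real.log T) ≤
        (Nat.nth Nat.Prime (j + k) : ℝ) - Nat.nth Nat.Prime j} with hS
  set Q := (Icc 1 ⌊X / 2⌋₊).filter Nat.Prime with hQ
  have hinf := Nat.infinite_setOfPred_prime
  have key : ∀ q ∈ Q, ∃ j : ℕ, j ∈ S ∧ q ≤ Nat.nth Nat.Prime j ∧ Nat.nth Nat.Prime j ≤ q + ⌊X ^ η⌋₊ := by
    intro q hq
    rw [hQ, mem_filter, mem_Icc] at hq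
    obtain ⟨⟨hq1, hq2⟩, hqp⟩ := hq
    obtain ⟨n, hn1, hn2, hn3⟩ := hwin q
    have hqX : (q : ℝ) ≤ X / 2 := (Nat.le_floor_iff (by positivity)).1 hq2
    have hh0 : (0:ℝ) ≤ h := Nat.cast_nonneg _
    have hnX : n ≤ ⌊3 / 4 * X⌋₊ := by
      apply Nat.le_floor
      linarith
    -- the index
    have hcq : Nat.count Nat.Prime q < Nat.count Nat.Prime (n + 1) := by
      have h1 : Nat.count Nat.Prime (q + 1) = Nat.count Nat.Prime q + 1 := by
        rw [Nat.count_succ, if_pos hqp]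
      have h2 : Nat.count Nat.Prime (q + 1) ≤ Nat.count Nat.Prime (n + 1) := Nat.count_monotone _ (by omega)
      omega
    set j := Nat.count Nat.Prime (n + 1) - 1 with hj
    have hj1 : j + 1 = Nat.count Nat.Prime (n + 1) := by omega
    have hjn : Nat.nth Nat.Prime j < n + 1 := Nat.nth_lt_of_lt_count (by omega)
    have hjq : q ≤ Nat.nth Nat.Prime j := by
      have h1 : Nat.nth Nat.Prime (Nat.count Nat.Prime q) = q := Nat.nth_count hqp
      rw [← h1]
      exact (Nat.nth_le_nth hinf).2 (by omega)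
    have hπn : Nat.primeCounting n = j + 1 := hj1.symm
    have hjk : n + h + 1 ≤ Nat.nth Nat.Prime (j + k) := by
      rw [← Nat.count_le_iff_le_nth hinf]
      have h1 : Nat.count Nat.Prime (n + h + 1) = Nat.primeCounting (n + h) := rfl
      rw [h1, cn_pi, hπn]
      omega
    have hjkX : (Nat.nth Nat.Prime (j + k) : ℝ) ≤ X := by
      have h1 : Nat.nth Nat.Prime (j + k) < ⌊X⌋₊ + 1 := by
        apply Nat.nth_lt_of_lt_count
        have h2 : Nat.count Nat.Prime (⌊X⌋₊ + 1) = Nat.primeCounting ⌊X⌋₊ := rfl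
        rw [h2]
        have h3 : Nat.primeCounting n ≤ Nat.primeCounting ⌊3 / 4 * X⌋₊ := Nat.monotone_primeCounting hnX
        have h4 : ((j + k : ℕ) : ℝ) < Nat.primeCounting ⌊X⌋₊ := by
          push_cast
          have h5 : (j : ℝ) + 1 = Nat.primeCounting n := by
            rw [hπn]; push_cast; ring
          have h6 : (Nat.primeCounting n : ℝ) ≤ Nat.primeCounting ⌊3 / 4 * X⌋₊ := by exact_mod_cast h3
          linarith
        exact_mod_cast h4
      have h2 : (Nat.nth Nat.Prime (j + k) : ℝ) ≤ ⌊X⌋₊ := by exact_mod_cast (by omega : Nat.nth Nat.Prime (j + k) ≤ ⌊X⌋₊)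
      exact h2.trans (Nat.floor_le hX0.le)
    refine ⟨j, ?_, hjq, ?_⟩
    · rw [hS, mem_filter, mem_range]
      refine ⟨?_, hjkX, ?_⟩
      · have h1 : j + k ≤ Nat.nth Nat.Prime (j + k) := Nat.le_nth (fun hf => absurd hf hinf)
        have h2 : Nat.nth Nat.Prime (j + k) ≤ ⌊X⌋₊ := Nat.le_floor hjkX
        have h3 : 1 ≤ k := by
          have : cn n h < k := hn3
          omega
        omega
      · refine hh.trans ?_
        have h1 : ((n + h + 1 : ℕ) : ℝ) ≤ Nat.nth Nat.Prime (j + k) := by exact_mod_cast hjk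
        have h2 : (Nat.nth Nat.Prime j : ℝ) ≤ n := by exact_mod_cast (by omega : Nat.nth Nat.Prime j ≤ n)
        push_cast at h1
        linarith
    · have h4 : ((n - q : ℕ) : ℝ) ≤ X ^ η := by
        rw [Nat.cast_sub hn1.le]
        linarith
      have := Nat.le_floor h4
      omega
  choose! F hF1 hF2 hF3 using key
  have hfib := fibre Q S ⌊X ^ η⌋₊ F (Nat.nth Nat.Prime) (fun n hn => ⟨hF1 n hn, hF2 n hn, hF3 n hn⟩)
  have hQc : (Q.card : ℝ) = Nat.primeCounting ⌊X / 2⌋₊ := by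
    have := card_PI 0 ⌊X / 2⌋₊ (Nat.zero_le _)
    rw [Nat.primeCounting_zero] at this
    have h2 : PI 0 ⌊X / 2⌋₊ = Q := by
      ext p
      rw [mem_PI, hQ, mem_filter, mem_Icc]
      constructor
      · rintro ⟨⟨a, b⟩, c⟩
        exact ⟨⟨a, b⟩, c⟩
      · rintro ⟨⟨a, b⟩, c⟩
        exact ⟨⟨a, b⟩, c⟩
    rw [h2] at this
    rw [this]; simp
  rw [hQc] at hfib
  have hXη1 : 1 ≤ X ^ η := Real.one_le_rpow (by linarith) hη0.le
  have hfl : (⌊X ^ η⌋₊ : ℝ) ≤ X ^ η := Nat.floor_le (by linarith)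
  have hS0 : (0:ℝ) ≤ S.card := Nat.cast_nonneg _
  have h1 : X / (4 * Real.log X) ≤ 2 * X ^ η * S.card := by
    refine g6.trans (hfib.trans ?_)
    apply mul_le_mul_of_nonneg_right _ hS0
    linarith
  have hL0 : 0 < Real.log X := by linarith
  rw [div_le_iff₀ (by positivity)] at h1
  have h3 : X = X ^ (1 - ε) * X ^ (ε / 2) * X ^ η * X ^ η := by
    rw [← Real.rpow_add hX0, ← Real.rpow_add hX0, ← Real.rpow_add hX0]
    nth_rewrite 1 [← Real.rpow_one X]
    congr 1
    rw [hη]; ring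
  have h4 : X ^ (1 - ε) * (8 * Real.log X * X ^ η) ≤ S.card * (8 * Real.log X * X ^ η) := by
    calc X ^ (1 - ε) * (8 * Real.log X * X ^ η) ≤ X ^ (1 - ε) * (X ^ (ε / 2) * X ^ η) := by gcongr
      _ ≤ X ^ (1 - ε) * (X ^ (ε / 2) * X ^ η) * X ^ η := by
          apply le_mul_of_one_le_right (by positivity) hXη1
      _ = X := by
          rw [← mul_assoc (X ^ (1 - ε))]
          exact h3.symm
      _ ≤ _ := by linarith
  exact le_of_mul_le_mul_right h4 (by positivity)

end Pool.Agent.K4H15
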