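import Pool.Agent.K4H15.SurvB
import Pool.Agent.Helper602.MK.J3
import Pool.Agent.Y831.RC.Run

set_option autoImplicit false
set_option linter.unusedVariables false

/-! # Windows with few primes in every interval of length `X^η` -/

namespace Pool.Agent.K4H15

open Finset Filter Pool.Agent.Y831.RC Pool.Agent.H256R2.SC

open scoped Classical

/-- the number of primes in `(n, n + h]` -/
def cn (n h : ℕ) : ℕ := ((Icc 1 h).filter (fun k => (n + k).Prime)).card

theorem totient_primorial (x : ℝ) (hx : 0 ≤ x) :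
    ((primorial ⌊x⌋₊).totient : ℝ) = (primorial ⌊x⌋₊ : ℝ) * WW x := by
  have h1 := Nat.totient_eq_mul_prod_factors (primorial ⌊x⌋₊)
  have h2 : (primorial ⌊x⌋₊).primeFactors = (Finset.Icc 1 ⌊x⌋₊).filter Nat.Prime := by
    ext p
    rw [Nat.mem_primeFactors, mem_filter, mem_Icc]
    constructor
    · rintro ⟨hp, hd, _⟩
      exact ⟨⟨hp.one_lt.le, hp.dvd_primorial_iff.1 hd⟩, hp⟩
    · rintro ⟨⟨_, h⟩, hp⟩
      exact ⟨hp, hp.dvd_primorial_iff.2 h, (primorial_pos _).ne'⟩
  rw [h2] at h1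
  have h3 : (((primorial ⌊x⌋₊).totient : ℚ) : ℝ) = (((primorial ⌊x⌋₊ : ℕ) : ℚ) *
      ∏ p ∈ (Finset.Icc 1 ⌊x⌋₊).filter Nat.Prime, (1 - ((p : ℚ))⁻¹) : ℚ) := by
    rw [← h1]
  push_cast at h3
  rw [h3]
  unfold WW
  simp only [one_div]

/-- averaging over the rows -/
theorem rows_avg {x C U : ℝ} {h N M : ℕ} (hx : 2 ≤ x) (hC : 0 ≤ C)
    (hBT : ∀ a q N : ℕ, 1 ≤ q → 2 ≤ N → (((range N).filter (fun t => (a + t * q).Prime)).card : ℝ) ≤
      C * ((q : ℝ) / (Nat.totient q : ℝ)) * N / Real.log N)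
    (hN : 2 ≤ N) {a : ℕ → ℕ} (ha : ∀ p : ℕ, p.Prime → (p : ℝ) ≤ x → a p < p)
    (hU : (((Finset.Icc 1 h).filter (fun k => ∀ p : ℕ, p.Prime → (p : ℝ) ≤ x →
        ¬ k ≡ a p [MOD p])).card : ℝ) ≤ U) :
    ∃ n : ℕ, M < n ∧ n ≤ M + primorial ⌊x⌋₊ * (N + 2) ∧ (cn n h : ℝ) ≤ U * (C / (WW x * Real.log N)) := by
  have hx0 : 0 ≤ x := by linarith
  set P := primorial ⌊x⌋₊ with hP
  have hP0 : 0 < P := primorial_pos _
  obtain ⟨b0, hb0, hb0'⟩ := LG.exists_crt ⌊x⌋₊ (fun p => p - a p)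
  have hfloor : ∀ p : ℕ, p ≤ ⌊x⌋₊ ↔ (p : ℝ) ≤ x := fun p => Nat.le_floor_iff hx0
  have hdvdP : ∀ p : ℕ, p.Prime → (p : ℝ) ≤ x → p ∣ P := fun p hp hpy =>
    (hp.dvd_primorial_iff).2 ((hfloor p).2 hpy)
  have hb0b : ∀ p : ℕ, p.Prime → (p : ℝ) ≤ x → p ∣ b0 + a p := by
    intro p hp hpy
    have h1 := hb0' p hp ((hfloor p).2 hpy)
    have h2 := ha p hp hpy
    have h3 : b0 + a p ≡ (p - a p) + a p [MOD p] := h1.add_right _
    rw [Nat.sub_add_cancel h2.le] at h3
    exact (Nat.modEq_zero_iff_dvd).1 (h3.trans (by simp [Nat.ModEq]))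
  set b1 := b0 + P * (M / P + 1) with hb1
  have hb1M : M < b1 := by
    have h1 : M < P * (M / P + 1) := by
      have := Nat.lt_mul_div_succ M hP0
      linarith
    omega
  have hb1P : P ≤ b1 := by
    have : P * 1 ≤ P * (M / P + 1) := Nat.mul_le_mul_left _ (Nat.le_add_left _ _)
    omega
  have hb1M2 : b1 ≤ M + 2 * P := by
    have h1 : P * (M / P) ≤ M := Nat.mul_div_le M P
    have h2 : P * (M / P + 1) = P * (M / P) + P := by ring
    omega
  set U0 : Finset ℕ := (Finset.Icc 1 h).filter (fun k => ∀ p : ℕ, p.Prime → (p : ℝ) ≤ x →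
        ¬ k ≡ a p [MOD p]) with hU0
  have hNr : (0:ℝ) < N := by positivity
  have hlN : 0 < Real.log N := Real.log_pos (by exact_mod_cast (by omega : 1 < N))
  -- the double count
  have h1 : ∑ t ∈ range N, (cn (b1 + t * P) h : ℝ) ≤
      ∑ k ∈ U0, (((range N).filter (fun t => (b1 + k + t * P).Prime)).card : ℝ) := by
    have e1 : ∀ t ∈ range N, (cn (b1 + t * P) h : ℝ) ≤ ∑ k ∈ U0, if (b1 + k + t * P).Prime then (1:ℝ) else 0 := by
      intro t _
      rw [← sum_filter, sum_const, nsmul_eq_mul, mul_one]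
      unfold cn
      norm_cast
      apply card_le_card
      intro k hk
      rw [mem_filter, mem_Icc] at hk
      rw [mem_filter, hU0, mem_filter, mem_Icc]
      have h5 : b1 + k + t * P = b1 + t * P + k := by ring
      refine ⟨⟨hk.1, ?_⟩, by rw [h5]; exact hk.2⟩
      intro p hp hpx hkp
      have h6 : b0 + k ≡ b0 + a p [MOD p] := hkp.add_left _
      have h7 : p ∣ b0 + k := (Nat.modEq_zero_iff_dvd).1
          (h6.trans ((Nat.modEq_zero_iff_dvd).2 (hb0b p hp hpx)))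
      have h8 : p ∣ b1 + t * P + k := by
        have h9 : b1 + t * P + k = (b0 + k) + P * (M / P + 1 + t) := by rw [hb1]; ring
        rw [h9]
        exact dvd_add h7 (Dvd.dvd.mul_right (hdvdP p hp hpx) _)
      have h10 := (Nat.prime_dvd_prime_iff_eq hp hk.2).1 h8
      have h11 : p ≤ P := Nat.le_of_dvd hP0 (hdvdP p hp hpx)
      have h12 := hk.1.1
      have h13 : 0 ≤ t * P := Nat.zero_le _
      omega
    refine (sum_le_sum e1).trans (le_of_eq ?_)
    rw [sum_comm]
    apply sum_congr rfl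
    intro k _
    rw [← sum_filter, sum_const, nsmul_eq_mul, mul_one]
  have hφ := totient_primorial x hx0
  rw [← hP] at hφ
  have hPr : (0:ℝ) < P := by exact_mod_cast hP0
  have hW := WW_pos x
  have hratio : (P : ℝ) / (P.totient : ℝ) = 1 / WW x := by
    rw [hφ]; field_simp
  have h2 : ∑ k ∈ U0, (((range N).filter (fun t => (b1 + k + t * P).Prime)).card : ℝ) ≤
      U * (C * (1 / WW x) * N / Real.log N) := by
    have e1 : ∀ k ∈ U0, (((range N).filter (fun t => (b1 + k + t * P).Prime)).card : ℝ) ≤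
        C * (1 / WW x) * N / Real.log N := by
      intro k _
      rw [← hratio]
      exact hBT (b1 + k) P N hP0 hN
    refine (sum_le_sum e1).trans ?_
    rw [sum_const, nsmul_eq_mul]
    apply mul_le_mul_of_nonneg_right hU
    positivity
  by_contra hcon
  push Not at hcon
  have h3 : ∀ t ∈ range N, U * (C / (WW x * Real.log N)) < (cn (b1 + t * P) h : ℝ) := by
    intro t ht
    rw [mem_range] at ht
    apply hcon
    · have : 0 ≤ t * P := Nat.zero_le _
      omega
    · have h4 : t * P ≤ P * N := by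
        rw [mul_comm]; exact Nat.mul_le_mul_left _ ht.le
      have h5 : P * (N + 2) = P * N + 2 * P := by ring
      omega
  have h4 : ∑ t ∈ range N, U * (C / (WW x * Real.log N)) < ∑ t ∈ range N, (cn (b1 + t * P) h : ℝ) := by
    apply sum_lt_sum_of_nonempty _ h3
    rw [nonempty_range_iff]; omega
  rw [sum_const, card_range, nsmul_eq_mul] at h4
  have h5 : (N : ℝ) * (U * (C / (WW x * Real.log N))) = U * (C * (1 / WW x) * N / Real.log N) := by
    field_simp
  rw [h5] at h4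
  linarith

theorem ev_rows (η : ℝ) (hη : 0 < η) (hη1 : η ≤ 1) : ∃ L₀ : ℝ, ∀ L : ℝ, L₀ ≤ L →
    1 ≤ L ∧ 2 ≤ Real.exp (η / 2 * L) ∧ 4 ≤ η * L ∧
    Real.exp (η / 8 * L) * (Real.exp (η / 2 * L) + 2) + L ^ (17 / 16 : ℝ) ≤ Real.exp (η * L) := by
  have a1 : ∀ᶠ L : ℝ in atTop, 1 ≤ L := eventually_ge_atTop _
  have a2 : ∀ᶠ L : ℝ in atTop, 4 ≤ η * L := by
    filter_upwards [eventually_ge_atTop (4 / η)] with L hL
    rw [div_le_iff₀ hη] at hL
    linarith
  have a3 : ∀ᶠ L : ℝ in atTop, L ^ (17 / 16 : ℝ) ≤ 1 / 4 * Real.exp (η * L) := by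
    have e1 := tendsto_rpow_mul_exp_neg_mul_atTop_nhds_zero (17 / 16) η hη
    have e2 := e1.eventually (gt_mem_nhds (show (0:ℝ) < 1 / 4 by norm_num))
    filter_upwards [e2] with L hL
    have h5 : L ^ (17 / 16 : ℝ) * Real.exp (-η * L) * Real.exp (η * L) ≤ 1 / 4 * Real.exp (η * L) :=
      mul_le_mul_of_nonneg_right hL.le (Real.exp_pos _).le
    have h6 : Real.exp (-η * L) * Real.exp (η * L) = 1 := by
      rw [← Real.exp_add]; simp
    rwa [mul_assoc, h6, mul_one] at h5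
  have a4 : ∀ᶠ L : ℝ in atTop, 8 ≤ Real.exp (η / 8 * L) := by
    have : Tendsto (fun L : ℝ => Real.exp (η / 8 * L)) atTop atTop :=
      Real.tendsto_exp_atTop.comp (tendsto_id.const_mul_atTop (by positivity))
    exact this.eventually_ge_atTop _
  obtain ⟨L₀, h⟩ := eventually_atTop.1 (a1.and (a2.and (a3.and a4)))
  refine ⟨L₀, fun L hL => ?_⟩
  obtain ⟨h1, h2, h3, h4⟩ := h L hL
  have h5 : 2 ≤ Real.exp (η / 2 * L) := by
    have := Real.add_one_le_exp (η / 2 * L)
    linarith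
  refine ⟨h1, h5, h2, ?_⟩
  set E := Real.exp (η / 8 * L) with hE
  have e1 : Real.exp (η / 2 * L) = E ^ 4 := by
    rw [hE, ← Real.exp_nat_mul]; congr 1; push_cast; ring
  have e2 : Real.exp (η * L) = E ^ 8 := by
    rw [hE, ← Real.exp_nat_mul]; congr 1; push_cast; ring
  rw [e1]
  rw [e2] at h3 ⊢
  have e3 : E * (E ^ 4 + 2) ≤ 1 / 2 * E ^ 8 := by
    have e4 : 0 < E := by linarith
    have e5 : (8:ℝ) ^ 3 ≤ E ^ 3 := by gcongr
    have e6 : E ^ 8 = E ^ 5 * E ^ 3 := by ring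
    have e8 : E ≤ E ^ 5 := le_self_pow₀ (by linarith) (by norm_num)
    have e9 : 0 < E ^ 5 := by positivity
    have e10 : E * (E ^ 4 + 2) = E ^ 5 + 2 * E := by ring
    rw [e10, e6]
    nlinarith
  have e4 : 0 ≤ E ^ 8 := by positivity
  linarith

/-- every interval of length `X^η` contains a window of length `h` with few primes -/
theorem sparse (η : ℝ) (hη : 0 < η) (hη1 : η ≤ 1) : ∃ C X₀ : ℝ, 0 < C ∧ ∀ X : ℝ, X₀ ≤ X →
    ∀ h : ℕ, Real.exp 1 * Real.log X ≤ h → (h : ℝ) ≤ (Real.log X) ^ (17 / 16 : ℝ) → ∀ τ : ℝ,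
    τ = Real.log (Real.log X) / Real.log (h / Real.log X) → ∀ M : ℕ,
    ∃ n : ℕ, M < n ∧ (n : ℝ) + h ≤ M + X ^ η ∧
      (cn n h : ℝ) ≤ C * (h / Real.log X * (Real.log τ / (τ * Real.log (Real.log τ)))) := by
  obtain ⟨C₁, L₁, hC₁, hS⟩ := survB (η / 16) (by positivity) (by linarith)
  obtain ⟨C₂, hC₂, hBT⟩ := Pool.Agent.Helper602.MK.N_J3.J3
  obtain ⟨c₃, C₃, hc₃, hcC₃, hWB⟩ := WW_bounds
  obtain ⟨L₄, hL₄⟩ := ev_rows η hη hη1
  refine ⟨C₁ * (C₂ * (1 / c₃) * (4 / η)), Real.exp (max L₁ (max L₄ (32 / η))), by positivity,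
    fun X hX h hh1 hh2 τ hτ M => ?_⟩
  have hX0 : 0 < X := (Real.exp_pos _).trans_le hX
  have hLL : max L₁ (max L₄ (32 / η)) ≤ Real.log X := by
    rw [← Real.log_exp (max L₁ (max L₄ (32 / η)))]
    exact Real.log_le_log (Real.exp_pos _) hX
  have hXη : X ^ η = Real.exp (η * Real.log X) := by
    rw [Real.rpow_def_of_pos hX0, mul_comm]
  rw [hXη]
  generalize Real.log X = L at *
  obtain ⟨a, ha, hU⟩ := hS L ((le_max_left _ _).trans hLL) h hh1 hh2 τ hτ
  obtain ⟨g1, g2, g3, g4⟩ := hL₄ L ((le_max_left _ _).trans ((le_max_right _ _).trans hLL))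
  have hL32 : 32 / η ≤ L := (le_max_right _ _).trans ((le_max_right _ _).trans hLL)
  rw [div_le_iff₀ hη] at hL32
  have hL0 : 0 < L := by linarith
  set x := η / 16 * L with hx
  have hx2 : 2 ≤ x := by rw [hx]; linarith
  set N := ⌊Real.exp (η / 2 * L)⌋₊ with hN
  have hN2 : 2 ≤ N := Nat.le_floor (by exact_mod_cast g2)
  obtain ⟨n, hn1, hn2, hn3⟩ := rows_avg (M := M) hx2 (by linarith : (0:ℝ) ≤ C₂) hBT hN2 ha hU
  refine ⟨n, hn1, ?_, ?_⟩
  · have hP : (primorial ⌊x⌋₊ : ℝ) ≤ Real.exp (η / 8 * L) := by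
      refine (primorial_le_exp x (by linarith)).trans (le_of_eq ?_)
      congr 1
      rw [hx]; ring
    have hn2' : (n : ℝ) ≤ M + primorial ⌊x⌋₊ * (N + 2) := by exact_mod_cast hn2
    have hNle : (N : ℝ) ≤ Real.exp (η / 2 * L) := Nat.floor_le (Real.exp_pos _).le
    have h1 : (primorial ⌊x⌋₊ : ℝ) * (N + 2) ≤ Real.exp (η / 8 * L) * (Real.exp (η / 2 * L) + 2) := by
      apply mul_le_mul hP (by linarith) (by positivity) (Real.exp_pos _).le
    linarith
  · refine hn3.trans ?_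
    have hlN : η / 4 * L ≤ Real.log N := by
      have h1 : Real.exp (η / 2 * L) ≤ 2 * N := by
        have := Nat.lt_floor_add_one (Real.exp (η / 2 * L))
        rw [← hN] at this
        have h2 : (2:ℝ) ≤ N := by exact_mod_cast hN2
        linarith
      have hN0 : (0:ℝ) < N := by positivity
      have h2 : η / 2 * L ≤ Real.log (2 * N) := by
        rw [Real.le_log_iff_exp_le (by positivity)]
        exact h1
      rw [Real.log_mul (by norm_num) hN0.ne'] at h2
      have := Real.log_two_lt_d9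
      linarith
    have hlogx : 0 < Real.log x := Real.log_pos (by linarith)
    have hxL : Real.log x ≤ Real.log L := by
      apply Real.log_le_log (by linarith)
      rw [hx]
      nlinarith
    have hW := WW_pos x
    have h5 := (hWB x hx2).1
    have h6 : C₂ / (WW x * Real.log N) ≤ C₂ * (1 / c₃) * (4 / η) * (Real.log L / L) := by
      have h7 : c₃ / Real.log x * (η / 4 * L) ≤ WW x * Real.log N := by
        apply mul_le_mul _ hlN (by positivity) hW.le
        rw [div_le_iff₀ hlogx]; exact h5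
      calc C₂ / (WW x * Real.log N) ≤ C₂ / (c₃ / Real.log x * (η / 4 * L)) := by
            apply div_le_div_of_nonneg_left (by linarith) (by positivity) h7
        _ = C₂ * (1 / c₃) * (4 / η) * (Real.log x / L) := by field_simp
        _ ≤ _ := by
            apply mul_le_mul_of_nonneg_left _ (by positivity)
            exact div_le_div_of_nonneg_right hxL hL0.le
    have hh0 : (0:ℝ) < h := by
      have : 0 < Real.exp 1 * L := by positivity
      linarith
    have hlL : 0 < Real.log L := by linarith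
    have hU0 : 0 ≤ C₁ * (h / Real.log L) * (Real.log τ / (τ * Real.log (Real.log τ))) :=
      (Nat.cast_nonneg _).trans hU
    calc C₁ * (h / Real.log L) * (Real.log τ / (τ * Real.log (Real.log τ))) * (C₂ / (WW x * Real.log N))
        ≤ C₁ * (h / Real.log L) * (Real.log τ / (τ * Real.log (Real.log τ))) *
          (C₂ * (1 / c₃) * (4 / η) * (Real.log L / L)) := mul_le_mul_of_nonneg_left h6 hU0
      _ = C₁ * (C₂ * (1 / c₃) * (4 / η)) * (h / L * (Real.log τ / (τ * Real.log (Real.log τ)))) := by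
          field_simp

end Pool.Agent.K4H15
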