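import Pool.Agent.K4H15.SmoothA
import Pool.Agent.Y831.RC.Surv2

set_option autoImplicit false
set_option linter.unusedVariables false

/-! # Survivors in windows longer than the record -/

namespace Pool.Agent.K4H15

open Finset Filter Pool.Agent.Y831.RC

open scoped Classical

theorem log16 : (2.772 : ℝ) ≤ Real.log 16 := by
  rw [show (16 : ℝ) = 2 ^ 4 by norm_num, Real.log_pow]
  have := Real.log_two_gt_d9
  push_cast; linarith

/-- facts on the iterated logarithms of `τ ≥ 16` -/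
theorem tau_facts {τ : ℝ} (hτ : 16 ≤ τ) : 2.772 ≤ Real.log τ ∧ 1 ≤ Real.log (Real.log τ) ∧
    Real.log (Real.log τ) ≤ Real.log τ - 1 ∧
    Real.log (Real.log (Real.log τ)) ≤ Real.log (Real.log τ) / 2 := by
  have h1 : 2.772 ≤ Real.log τ := log16.trans (Real.log_le_log (by norm_num) hτ)
  have h2 : 1 ≤ Real.log (Real.log τ) := by
    rw [Real.le_log_iff_exp_le (by linarith)]
    have := Real.exp_one_lt_d9
    linarith
  have h3 : Real.log (Real.log τ) ≤ Real.log τ - 1 := Real.log_le_sub_one_of_pos (by linarith)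
  refine ⟨h1, h2, h3, ?_⟩
  set x := Real.log (Real.log τ) with hx
  have h4 : Real.log (x / 2) ≤ x / 2 - 1 := Real.log_le_sub_one_of_pos (by linarith)
  rw [Real.log_div (by linarith) (by norm_num)] at h4
  have := Real.log_two_lt_d9
  linarith

theorem ev_l (K k₀ : ℝ) : ∃ L₀ : ℝ, ∀ L : ℝ, L₀ ≤ L → 16 ≤ Real.log L ∧ 0 < L ∧
    K ≤ Real.log L / (100 * Real.log (Real.log L)) ∧
    Real.log (100 * Real.log (Real.log L)) ≤ Real.log L / (100 * Real.log (Real.log L)) / 2 ∧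
    k₀ ≤ Real.log L / 2 := by
  have t1 := Real.tendsto_log_atTop
  have a1 : ∀ᶠ x : ℝ in atTop, 100 * Real.log x * K ≤ x := by
    rcases le_or_gt K 0 with hK | hK
    · filter_upwards [eventually_ge_atTop (1:ℝ)] with x hx
      have : 0 ≤ Real.log x := Real.log_nonneg hx
      nlinarith
    · have e := Real.isLittleO_log_id_atTop.def (show (0:ℝ) < 1 / (100 * K) by positivity)
      filter_upwards [e, eventually_ge_atTop (1:ℝ)] with x hx hx1
      rw [Real.norm_eq_abs, Real.norm_eq_abs, abs_of_nonneg (Real.log_nonneg hx1), id,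
        abs_of_nonneg (by linarith)] at hx
      rw [div_mul_eq_mul_div, one_mul, le_div_iff₀ (by positivity)] at hx
      linarith
  have a2 : ∀ᶠ x : ℝ in atTop, 200 * (Real.log x) * (100 * Real.log x) ≤ x := by
    have e := (isLittleO_log_rpow_rpow_atTop 2 (show (0:ℝ) < 1 by norm_num)).def
      (show (0:ℝ) < 1 / 20000 by positivity)
    filter_upwards [e, eventually_ge_atTop (1:ℝ)] with x hx hx1
    rw [Real.norm_eq_abs, Real.norm_eq_abs, Real.rpow_one, Real.rpow_two, abs_of_nonneg (by positivity),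
      abs_of_nonneg (by linarith)] at hx
    linarith
  have a3 : ∀ᶠ x : ℝ in atTop, 16 ≤ x := eventually_ge_atTop _
  have a4 : ∀ᶠ x : ℝ in atTop, k₀ ≤ x / 2 := by
    filter_upwards [eventually_ge_atTop (2 * k₀)] with x hx
    linarith
  have ev : ∀ᶠ x : ℝ in atTop, 16 ≤ x ∧ K ≤ x / (100 * Real.log x) ∧
      Real.log (100 * Real.log x) ≤ x / (100 * Real.log x) / 2 ∧ k₀ ≤ x / 2 := by
    filter_upwards [a1, a2, a3, a4] with x h1 h2 h3 h4
    have hl : 2.772 ≤ Real.log x := log16.trans (Real.log_le_log (by norm_num) h3)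
    have hp : 0 < 100 * Real.log x := by linarith
    refine ⟨h3, ?_, ?_, h4⟩
    · rw [le_div_iff₀ hp]
      linarith
    · have h5 : Real.log (100 * Real.log x) ≤ 100 * Real.log x := by
        have := Real.log_le_sub_one_of_pos hp
        linarith
      refine h5.trans ?_
      rw [div_div, le_div_iff₀ (by positivity)]
      nlinarith
  have ev2 := (t1.eventually ev).and (eventually_gt_atTop (0:ℝ))
  obtain ⟨L₀, h⟩ := eventually_atTop.1 ev2
  refine ⟨L₀, fun L hL => ?_⟩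
  obtain ⟨⟨h1, h2, h3, h4⟩, h5⟩ := h L hL
  exact ⟨h1, h5, h2, h3, h4⟩

theorem survB (κ : ℝ) (hκ : 0 < κ) (hκ1 : κ ≤ 1) : ∃ C L₀ : ℝ, 0 < C ∧ ∀ L : ℝ, L₀ ≤ L →
    ∀ h : ℕ, Real.exp 1 * L ≤ h → (h : ℝ) ≤ L ^ (17 / 16 : ℝ) → ∀ τ : ℝ,
    τ = Real.log L / Real.log (h / L) →
    ∃ a : ℕ → ℕ, (∀ p : ℕ, p.Prime → (p : ℝ) ≤ κ * L → a p < p) ∧
      (((Finset.Icc 1 h).filter (fun k => ∀ p : ℕ, p.Prime → (p : ℝ) ≤ κ * L →
        ¬ k ≡ a p [MOD p])).card : ℝ) ≤
      C * (h / Real.log L) * (Real.log τ / (τ * Real.log (Real.log τ))) := by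
  obtain ⟨C₀, K, hC₀, hK, hSm⟩ := smoothA
  obtain ⟨C₁, hC₁, hSR⟩ := sum_ratio
  obtain ⟨c₂, C₂, hc₂, hcC₂, hWB⟩ := WW_bounds
  have hC₂ : 0 < C₂ := by linarith
  set k₀ : ℝ := -Real.log κ with hk₀
  have hk₀0 : 0 ≤ k₀ := by
    have := Real.log_nonpos hκ.le hκ1
    rw [hk₀]; linarith
  obtain ⟨L₀, hL₀⟩ := ev_l K k₀
  refine ⟨100 * C₂ * (C₀ + 2 * (1 + k₀) + 2 * C₁), max L₀ (2 / κ), by positivity, ?_⟩
  intro L hL h hh1 hh2 τ hτ
  obtain ⟨l16, hL0, e1, e2, e3⟩ := hL₀ L ((le_max_left _ _).trans hL)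
  have hx2 : 2 ≤ κ * L := by
    have h1 : 2 / κ ≤ L := (le_max_right _ _).trans hL
    rw [div_le_iff₀ hκ] at h1
    linarith
  obtain ⟨l, hl⟩ : ∃ l, l = Real.log L := ⟨_, rfl⟩
  rw [← hl] at e1 e2 e3 l16 hτ ⊢
  have hl0 : 0 < l := by linarith
  have hh0 : (0:ℝ) < h := by
    have := Real.exp_pos 1
    have h2 : 0 < Real.exp 1 * L := by positivity
    linarith
  obtain ⟨s, hs⟩ : ∃ s, s = Real.log (h / L) := ⟨_, rfl⟩
  rw [← hs] at hτ
  have hlogh : Real.log h = l + s := by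
    rw [hs, Real.log_div hh0.ne' hL0.ne', ← hl]; ring
  have hs1 : 1 ≤ s := by
    rw [hs, Real.le_log_iff_exp_le (by positivity), le_div_iff₀ hL0]
    exact hh1
  have hs2 : s ≤ l / 16 := by
    have h1 : Real.log h ≤ Real.log (L ^ (17 / 16 : ℝ)) := Real.log_le_log hh0 hh2
    rw [Real.log_rpow hL0, ← hl, hlogh] at h1
    linarith
  have hs0 : 0 < s := by linarith
  have hτ16 : 16 ≤ τ := by
    rw [hτ, le_div_iff₀ hs0]
    linarith
  have hτl : τ ≤ l := by
    rw [hτ, div_le_iff₀ hs0]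
    nlinarith
  have hτ0 : 0 < τ := by linarith
  obtain ⟨t1, t2, t3, t4⟩ := tau_facts hτ16
  obtain ⟨lt, hlt⟩ : ∃ lt, lt = Real.log τ := ⟨_, rfl⟩
  rw [← hlt] at t1 t2 t3 t4 ⊢
  obtain ⟨llt, hllt⟩ : ∃ llt, llt = Real.log lt := ⟨_, rfl⟩
  rw [← hllt] at t2 t3 t4 ⊢
  have hlt0 : 0 < lt := by linarith
  have hllt0 : 0 < llt := by linarith
  obtain ⟨u, hu⟩ : ∃ u, u = 100 * lt / llt := ⟨_, rfl⟩
  have hu100 : 100 ≤ u := by
    rw [hu, le_div_iff₀ hllt0]
    linarith
  have hu0 : 0 < u := by linarith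
  have hlτl : lt ≤ Real.log l := by
    rw [hlt]; exact Real.log_le_log hτ0 hτl
  have hu2 : u ≤ 100 * Real.log l := by
    rw [hu, div_le_iff₀ hllt0]
    nlinarith
  obtain ⟨H, hH⟩ : ∃ H, H = l + s := ⟨_, rfl⟩
  have hHl : l ≤ H := by linarith
  have hHl2 : H ≤ 17 / 16 * l := by linarith
  obtain ⟨Z, hZ⟩ : ∃ Z, Z = H / u := ⟨_, rfl⟩
  have hZl : l / (100 * Real.log l) ≤ Z := by
    rw [hZ]
    exact div_le_div₀ (by linarith) hHl hu0 hu2
  have hKZ : K ≤ Z := e1.trans hZl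
  have hlogu : Real.log u ≤ Z / 2 := by
    have h1 : Real.log u ≤ Real.log (100 * Real.log l) := Real.log_le_log hu0 hu2
    linarith
  have hZ0 : 0 < Z := by linarith
  have hhe : (h : ℝ) = Real.exp (u * Z) := by
    rw [hZ, mul_div_cancel₀ _ hu0.ne', hH, ← hlogh, Real.exp_log hh0]
  have hsm := hSm h u Z hhe hu100 hKZ hlogu
  -- the saving
  have hsav : lt ≤ u * Real.log u / 4 := by
    have h1 : Real.log u = Real.log 100 + llt - Real.log llt := by
      rw [hu, Real.log_div (by positivity) hllt0.ne', Real.log_mul (by norm_num) hlt0.ne', ← hllt]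
    have h2 : 0 ≤ Real.log 100 := Real.log_nonneg (by norm_num)
    have h3 : llt / 2 ≤ Real.log u := by linarith
    have h4 : u * (llt / 2) ≤ u * Real.log u := mul_le_mul_of_nonneg_left h3 hu0.le
    have h5 : u * (llt / 2) = 50 * lt := by
      rw [hu]; field_simp; ring
    linarith
  have hsm2 : ((Sm ⌊Real.exp Z⌋₊ h).card : ℝ) ≤ h * (C₀ / τ) := by
    refine hsm.trans ?_
    have h1 : Real.exp (-(u * Real.log u / 4)) ≤ 1 / τ := by
      calc Real.exp (-(u * Real.log u / 4)) ≤ Real.exp (-lt) := Real.exp_le_exp.2 (by linarith)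
        _ = 1 / τ := by rw [Real.exp_neg, hlt, Real.exp_log hτ0, one_div]
    calc C₀ * (h * Real.exp (-(u * Real.log u / 4))) ≤ C₀ * (h * (1 / τ)) := by gcongr
      _ = h * (C₀ / τ) := by ring
  -- the large primes
  obtain ⟨x, hx⟩ : ∃ x, x = κ * L := ⟨_, rfl⟩
  rw [← hx] at hx2 ⊢
  have hx0 : 0 < x := by linarith
  have hlogx : Real.log x = l - k₀ := by
    rw [hx, Real.log_mul hκ.ne' hL0.ne', ← hl, hk₀]; ring
  have hlogx2 : l / 2 ≤ Real.log x := by rw [hlogx]; linarith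
  have hxh : x ≤ h := by
    have h1 : x ≤ L := by
      rw [hx]
      nlinarith
    have h2 : L ≤ Real.exp 1 * L := by
      have := Real.add_one_le_exp (1:ℝ)
      nlinarith
    linarith
  have hsr := hSR x (h : ℝ) hx2 hxh
  rw [Nat.floor_natCast, hlogh] at hsr
  have hsum : ∑ p ∈ (Finset.Ioc ⌊x⌋₊ h).filter Nat.Prime, (1 : ℝ) / p ≤ (2 * (1 + k₀) + 2 * C₁) / τ := by
    refine hsr.trans ?_
    have h1 : Real.log ((l + s) / Real.log x) ≤ (l + s) / Real.log x - 1 :=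
      Real.log_le_sub_one_of_pos (div_pos (by linarith) (by linarith))
    have h2 : (l + s) / Real.log x - 1 = (s + k₀) / Real.log x := by
      rw [hlogx]
      have : l - k₀ ≠ 0 := by linarith
      field_simp
      ring
    have h3 : (s + k₀) / Real.log x ≤ (s * (1 + k₀)) / (l / 2) := by
      apply div_le_div₀ (mul_nonneg hs0.le (by linarith)) (by nlinarith) (by positivity) hlogx2
    have h4 : C₁ / Real.log x ≤ (s * C₁) / (l / 2) := by
      apply div_le_div₀ (mul_nonneg hs0.le hC₁) (by nlinarith) (by positivity) hlogx2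
    have h5 : (2 * (1 + k₀) + 2 * C₁) / τ = (s * (1 + k₀)) / (l / 2) + (s * C₁) / (l / 2) := by
      rw [hτ]
      field_simp
    rw [h5]
    linarith
  set R : Finset ℕ := (Finset.Icc 1 h).filter (fun k => ∀ p : ℕ, p.Prime → Real.exp Z < p →
    (p : ℝ) ≤ x → ¬ p ∣ k) with hR
  have hRcard : (R.card : ℝ) ≤ h * ((C₀ + 2 * (1 + k₀) + 2 * C₁) / τ) := by
    have h1 := card_U0 h (Real.exp Z) x hx0.le
    have h2 : (((Finset.Icc 1 h).filter (fun n => ∀ p : ℕ, p.Prime → p ∣ n → (p : ℝ) ≤ Real.exp Z)).card : ℝ) ≤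
        (Sm ⌊Real.exp Z⌋₊ h).card := by
      apply le_of_eq
      congr 2
      unfold Sm
      apply Finset.filter_congr
      intro n _
      constructor
      · intro hn p hp hpn
        exact Nat.le_floor (hn p hp hpn)
      · intro hn p hp hpn
        exact (Nat.le_floor_iff (Real.exp_pos _).le).1 (hn p hp hpn)
    have h3 : (h : ℝ) * ∑ p ∈ (Finset.Ioc ⌊x⌋₊ h).filter Nat.Prime, (1 : ℝ) / p ≤
        h * ((2 * (1 + k₀) + 2 * C₁) / τ) := mul_le_mul_of_nonneg_left hsum hh0.le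
    have h4 : (h : ℝ) * ((C₀ + 2 * (1 + k₀) + 2 * C₁) / τ) = h * (C₀ / τ) +
        h * ((2 * (1 + k₀) + 2 * C₁) / τ) := by ring
    rw [h4]
    linarith
  -- the greedy classes
  set S₂ : Finset ℕ := (Finset.Icc 1 ⌊Real.exp Z⌋₊).filter Nat.Prime with hS₂
  obtain ⟨g, hg1, hg2⟩ := Pool.Agent.H256R2.SC.greedy_all S₂ (fun p hp => (Finset.mem_filter.1 hp).2) R
  have hzx : Real.exp Z ≤ x := by
    rw [← Real.exp_log hx0]
    apply Real.exp_le_exp.2
    have h1 : Z ≤ l / 2 := by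
      rw [hZ, div_le_iff₀ hu0]
      nlinarith
    linarith
  refine ⟨fun p => if (p : ℝ) ≤ Real.exp Z then g p else 0, ?_, ?_⟩
  · intro p hp _
    by_cases h : (p : ℝ) ≤ Real.exp Z
    · simp only [if_pos h]
      apply hg1
      rw [hS₂, Finset.mem_filter, Finset.mem_Icc]
      exact ⟨⟨hp.one_lt.le, Nat.le_floor h⟩, hp⟩
    · simp only [if_neg h]
      exact hp.pos
  · have hsub : (Finset.Icc 1 h).filter (fun k => ∀ p : ℕ, p.Prime → (p : ℝ) ≤ x →
        ¬ k ≡ (if (p : ℝ) ≤ Real.exp Z then g p else 0) [MOD p]) ⊆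
        R.filter (fun k => ∀ p ∈ S₂, ¬ k ≡ g p [MOD p]) := by
      intro k hk
      rw [Finset.mem_filter, Finset.mem_Icc] at hk
      rw [Finset.mem_filter, hR, Finset.mem_filter, Finset.mem_Icc]
      refine ⟨⟨hk.1, ?_⟩, ?_⟩
      · intro p hp hpz hpx hpk
        have h1 := hk.2 p hp hpx
        rw [if_neg (not_le.2 hpz)] at h1
        exact h1 ((Nat.modEq_zero_iff_dvd).2 hpk)
      · intro p hp
        rw [hS₂, Finset.mem_filter, Finset.mem_Icc] at hp
        have hpz : (p : ℝ) ≤ Real.exp Z := (Nat.le_floor_iff (Real.exp_pos _).le).1 hp.1.2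
        have h1 := hk.2 p hp.2 (hpz.trans hzx)
        rwa [if_pos hpz] at h1
    have h1 : (((Finset.Icc 1 h).filter (fun k => ∀ p : ℕ, p.Prime → (p : ℝ) ≤ x →
        ¬ k ≡ (if (p : ℝ) ≤ Real.exp Z then g p else 0) [MOD p])).card : ℝ) ≤
        R.card * ∏ p ∈ S₂, (1 - 1 / (p : ℝ)) := by
      refine le_trans ?_ hg2
      exact_mod_cast Finset.card_le_card hsub
    refine h1.trans ?_
    have hWW : ∏ p ∈ S₂, (1 - 1 / (p : ℝ)) = WW (Real.exp Z) := rfl
    rw [hWW]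
    have hz2 : 2 ≤ Real.exp Z := by
      have := Real.add_one_le_exp Z
      linarith
    have h2 := (hWB (Real.exp Z) hz2).2
    rw [Real.log_exp] at h2
    have h3 : WW (Real.exp Z) ≤ C₂ * u / l := by
      have h4 : WW (Real.exp Z) ≤ C₂ / Z := by rw [le_div_iff₀ hZ0]; exact h2
      refine h4.trans ?_
      rw [hZ, div_div_eq_mul_div]
      exact div_le_div_of_nonneg_left (by positivity) hl0 hHl
    calc (R.card : ℝ) * WW (Real.exp Z) ≤ (h * ((C₀ + 2 * (1 + k₀) + 2 * C₁) / τ)) * (C₂ * u / l) := by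
          apply mul_le_mul hRcard h3 (WW_pos _).le (by positivity)
      _ = 100 * C₂ * (C₀ + 2 * (1 + k₀) + 2 * C₁) * (h / l) * (lt / (τ * llt)) := by
          rw [hu]
          field_simp

end Pool.Agent.K4H15
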